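import Mathlib

/-!
# Capacities: definitions and basic facts (for MP_4d7ea7_an)
-/

set_option autoImplicit false

open MeasureTheory Set Filter Topology Metric
open scoped ENNReal ContDiff

namespace Pool.Agent.R999.Inr

/-- Euclidean space. -/
abbrev E (N : ℕ) := EuclideanSpace ℝ (Fin N)

variable {N : ℕ}

/-- `φ ∈ C₀^∞(U)`. -/
structure Test (U : Set (E N)) (φ : E N → ℝ) : Prop where
  smooth : ContDiff ℝ ∞ φ
  cpt : HasCompactSupport φ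
  supp : tsupport φ ⊆ U

/-- `∫ |∇φ|^p`. -/
noncomputable def En (p : ℝ) (φ : E N → ℝ) : ℝ := ∫ x, ‖fderiv ℝ φ x‖ ^ p

/-- The capacity `cap_p(K; U)`: the infimum of `∫ |∇φ|^p` over the `φ ∈ C₀^∞(U)` with `φ ≥ 1` on
`K`. -/
noncomputable def cap (p : ℝ) (K U : Set (E N)) : ℝ :=
  sInf {e | ∃ φ : E N → ℝ, Test U φ ∧ (∀ x ∈ K, 1 ≤ φ x) ∧ En p φ = e}

lemma En_nonneg (p : ℝ) (φ : E N → ℝ) : 0 ≤ En p φ :=
  integral_nonneg fun x => by positivity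

lemma cap_bdd (p : ℝ) (K U : Set (E N)) :
    BddBelow {e | ∃ φ : E N → ℝ, Test U φ ∧ (∀ x ∈ K, 1 ≤ φ x) ∧ En p φ = e} :=
  ⟨0, by rintro e ⟨φ, _, _, rfl⟩; exact En_nonneg p φ⟩

lemma cap_le {p : ℝ} {K U : Set (E N)} {φ : E N → ℝ} (h : Test U φ) (h1 : ∀ x ∈ K, 1 ≤ φ x) :
    cap p K U ≤ En p φ := csInf_le (cap_bdd p K U) ⟨φ, h, h1, rfl⟩

lemma cap_nonneg (p : ℝ) (K U : Set (E N)) : 0 ≤ cap p K U :=
  Real.sInf_nonneg (by rintro e ⟨φ, _, _, rfl⟩; exact En_nonneg p φ)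

lemma le_cap {p c : ℝ} {K U : Set (E N)} (hne : ∃ φ : E N → ℝ, Test U φ ∧ ∀ x ∈ K, 1 ≤ φ x)
    (h : ∀ φ : E N → ℝ, Test U φ → (∀ x ∈ K, 1 ≤ φ x) → c ≤ En p φ) : c ≤ cap p K U := by
  obtain ⟨φ, h1, h2⟩ := hne
  refine le_csInf ⟨_, φ, h1, h2, rfl⟩ ?_
  rintro e ⟨ψ, a, b, rfl⟩
  exact h ψ a b

lemma exists_lt {p a : ℝ} {K U : Set (E N)} (hne : ∃ φ : E N → ℝ, Test U φ ∧ ∀ x ∈ K, 1 ≤ φ x)
    (h : cap p K U < a) : ∃ φ : E N → ℝ, Test U φ ∧ (∀ x ∈ K, 1 ≤ φ x) ∧ En p φ < a := by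
  obtain ⟨φ, h1, h2⟩ := hne
  obtain ⟨e, ⟨ψ, a, b, rfl⟩, he⟩ := exists_lt_of_csInf_lt
    (s := {e | ∃ φ : E N → ℝ, Test U φ ∧ (∀ x ∈ K, 1 ≤ φ x) ∧ En p φ = e})
    ⟨_, φ, h1, h2, rfl⟩ h
  exact ⟨ψ, a, b, he⟩

lemma Test.mono {U U' : Set (E N)} (hU : U ⊆ U') {φ : E N → ℝ} (h : Test U φ) : Test U' φ :=
  ⟨h.smooth, h.cpt, h.supp.trans hU⟩

lemma cap_anti {p : ℝ} {K U U' : Set (E N)} (hU : U ⊆ U')
    (hne : ∃ φ : E N → ℝ, Test U φ ∧ ∀ x ∈ K, 1 ≤ φ x) : cap p K U' ≤ cap p K U :=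
  le_cap hne fun _ h1 h2 => cap_le (h1.mono hU) h2

lemma Test.fderiv_cont {U : Set (E N)} {φ : E N → ℝ} (h : Test U φ) : Continuous (fderiv ℝ φ) :=
  h.smooth.continuous_fderiv (by simp)

lemma Test.En_int {U : Set (E N)} {φ : E N → ℝ} (h : Test U φ) {p : ℝ} (hp : 0 < p) :
    Integrable fun x => ‖fderiv ℝ φ x‖ ^ p := by
  refine Continuous.integrable_of_hasCompactSupport ?_ ?_
  · exact (h.fderiv_cont.norm).rpow_const fun x => Or.inr hp.le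
  · refine (h.cpt.fderiv (𝕜 := ℝ)).comp_left (g := fun L : E N →L[ℝ] ℝ => ‖L‖ ^ p) ?_
    simp [Real.zero_rpow hp.ne']

/-! ### A test function for balls -/

lemma exists_bump {s t : ℝ} (hs : 0 < s) (hst : s < t) : ∃ φ : E N → ℝ, ContDiff ℝ ∞ φ ∧
    HasCompactSupport φ ∧ (∀ x, 0 ≤ φ x) ∧ (∀ x, φ x ≤ 1) ∧ (∀ x ∈ closedBall (0 : E N) s, φ x = 1) ∧
    tsupport φ ⊆ closedBall 0 t := by
  let f : ContDiffBump (0 : E N) := ⟨s, t, hs, hst⟩
  refine ⟨f, f.contDiff, f.hasCompactSupport, fun x => f.nonneg, fun x => f.le_one, fun x hx => ?_,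
    ?_⟩
  · exact f.one_of_mem_closedBall hx
  · rw [f.tsupport_eq]

lemma ne_unit {K U : Set (E N)} (hK : K ⊆ closedBall 0 1) {t : ℝ} (ht : 1 < t)
    (hU : closedBall 0 t ⊆ U) : ∃ φ : E N → ℝ, Test U φ ∧ ∀ x ∈ K, 1 ≤ φ x := by
  obtain ⟨φ, h1, h2, _, _, h3, h4⟩ := exists_bump (N := N) one_pos ht
  exact ⟨φ, ⟨h1, h2, h4.trans hU⟩, fun x hx => (h3 x (hK hx)).ge⟩

/-! ### Scaling -/

/-- the affine map `x ↦ x₀ + r x` -/
def aff (x0 : E N) (r : ℝ) (x : E N) : E N := x0 + r • x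

lemma aff_inv {x0 : E N} {r : ℝ} (hr : r ≠ 0) (x : E N) :
    aff x0 r (aff (-(r⁻¹ • x0)) r⁻¹ x) = x := by
  unfold aff
  rw [smul_add, smul_neg, smul_smul, smul_smul, mul_inv_cancel₀ hr]
  simp

lemma aff_inv' {x0 : E N} {r : ℝ} (hr : r ≠ 0) (x : E N) :
    aff (-(r⁻¹ • x0)) r⁻¹ (aff x0 r x) = x := by
  unfold aff
  rw [smul_add, smul_smul, inv_mul_cancel₀ hr]
  simp

lemma aff_cont (x0 : E N) (r : ℝ) : Continuous (aff x0 r) := by unfold aff; fun_prop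

/-- the affine homeomorphism -/
noncomputable def affH (x0 : E N) {r : ℝ} (hr : r ≠ 0) : E N ≃ₜ E N where
  toFun := aff x0 r
  invFun := aff (-(r⁻¹ • x0)) r⁻¹
  left_inv := aff_inv' hr
  right_inv := aff_inv hr
  continuous_toFun := aff_cont _ _
  continuous_invFun := aff_cont _ _

lemma Test.comp_aff {U : Set (E N)} {φ : E N → ℝ} (h : Test U φ) (x0 : E N) {r : ℝ} (hr : r ≠ 0) :
    Test (aff x0 r ⁻¹' U) (fun x => φ (aff x0 r x)) := by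
  refine ⟨?_, ?_, ?_⟩
  · have : ContDiff ℝ ∞ (aff x0 r) := by unfold aff; fun_prop
    exact h.smooth.comp this
  · exact h.cpt.comp_homeomorph (affH x0 hr)
  · intro x hx
    have h1 : tsupport (fun x => φ (aff x0 r x)) ⊆ aff x0 r ⁻¹' tsupport φ :=
      tsupport_comp_subset_preimage φ (aff_cont x0 r)
    exact h.supp (h1 hx)

lemma En_comp_aff {p : ℝ} {φ : E N → ℝ} (hφ : Differentiable ℝ φ) (x0 : E N) {r : ℝ}
    (hr : 0 < r) : En p (fun x => φ (aff x0 r x)) = r ^ (p - N) * En p φ := by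
  unfold En
  have e1 : ∀ x, ‖fderiv ℝ (fun x => φ (aff x0 r x)) x‖ ^ p =
      r ^ p * ‖fderiv ℝ φ (aff x0 r x)‖ ^ p := by
    intro x
    have h1 : HasFDerivAt (aff x0 r) (r • ContinuousLinearMap.id ℝ (E N)) x := by
      unfold aff
      exact ((hasFDerivAt_id x).const_smul r).const_add x0
    have h2 := (hφ (aff x0 r x)).hasFDerivAt.comp x h1
    have h3 : fderiv ℝ (fun x => φ (aff x0 r x)) x = r • fderiv ℝ φ (aff x0 r x) := by
      rw [show (fun x => φ (aff x0 r x)) = φ ∘ aff x0 r from rfl, h2.fderiv]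
      ext v
      simp
    rw [h3, norm_smul, Real.norm_of_nonneg hr.le, Real.mul_rpow hr.le (norm_nonneg _)]
  simp_rw [e1]
  rw [integral_const_mul]
  have e2 : ∫ x, ‖fderiv ℝ φ (aff x0 r x)‖ ^ p = (r ^ N)⁻¹ * ∫ x, ‖fderiv ℝ φ x‖ ^ p := by
    have h1 := Measure.integral_comp_smul (volume : Measure (E N))
      (fun y => ‖fderiv ℝ φ (x0 + y)‖ ^ p) r
    rw [integral_add_left_eq_self (fun y => ‖fderiv ℝ φ y‖ ^ p) x0] at h1
    simp only [finrank_euclideanSpace, Fintype.card_fin, smul_eq_mul] at h1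
    rw [abs_of_nonneg (by positivity)] at h1
    exact h1
  rw [e2, ← mul_assoc]
  congr 1
  rw [Real.rpow_sub hr, Real.rpow_natCast, div_eq_mul_inv]

lemma cap_aff_le {p : ℝ} {K U : Set (E N)} (hne : ∃ φ : E N → ℝ, Test U φ ∧ ∀ x ∈ K, 1 ≤ φ x)
    (x0 : E N) {r : ℝ} (hr : 0 < r) :
    cap p (aff x0 r ⁻¹' K) (aff x0 r ⁻¹' U) ≤ r ^ (p - N) * cap p K U := by
  rw [← div_le_iff₀' (by positivity)]
  refine le_cap hne fun φ h1 h2 => ?_
  rw [div_le_iff₀' (by positivity), ← En_comp_aff (h1.smooth.differentiable (by simp)) x0 hr]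
  exact cap_le (h1.comp_aff x0 hr.ne') fun x hx => h2 _ hx

/-- Scaling of capacities. -/
lemma cap_aff {p : ℝ} {K U : Set (E N)} (hne : ∃ φ : E N → ℝ, Test U φ ∧ ∀ x ∈ K, 1 ≤ φ x)
    (x0 : E N) {r : ℝ} (hr : 0 < r) :
    cap p (aff x0 r ⁻¹' K) (aff x0 r ⁻¹' U) = r ^ (p - N) * cap p K U := by
  refine le_antisymm (cap_aff_le hne x0 hr) ?_
  have hne' : ∃ φ : E N → ℝ, Test (aff x0 r ⁻¹' U) φ ∧ ∀ x ∈ aff x0 r ⁻¹' K, 1 ≤ φ x := by
    obtain ⟨φ, h1, h2⟩ := hne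
    exact ⟨_, h1.comp_aff x0 hr.ne', fun x hx => h2 _ hx⟩
  have h := cap_aff_le (p := p) hne' (-(r⁻¹ • x0)) (inv_pos.mpr hr)
  have e : ∀ S : Set (E N), aff (-(r⁻¹ • x0)) r⁻¹ ⁻¹' (aff x0 r ⁻¹' S) = S := by
    intro S
    ext x
    simp only [mem_preimage, aff_inv hr.ne']
  rw [e, e, Real.inv_rpow hr.le] at h
  rwa [← div_eq_inv_mul, le_div_iff₀' (by positivity)] at h

lemma aff_ball (x0 : E N) {r : ℝ} (hr : 0 < r) (x1 : E N) (s : ℝ) :
    aff x0 r ⁻¹' ball (aff x0 r x1) (s * r) = ball x1 s := by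
  ext x
  simp only [mem_preimage, mem_ball, dist_eq_norm, aff]
  rw [add_sub_add_left_eq_sub, ← smul_sub, norm_smul, Real.norm_of_nonneg hr.le, mul_comm,
    mul_lt_mul_iff_left₀ hr]

lemma aff_closedBall (x0 : E N) {r : ℝ} (hr : 0 < r) (x1 : E N) (s : ℝ) :
    aff x0 r ⁻¹' closedBall (aff x0 r x1) (s * r) = closedBall x1 s := by
  ext x
  simp only [mem_preimage, mem_closedBall, dist_eq_norm, aff]
  rw [add_sub_add_left_eq_sub, ← smul_sub, norm_smul, Real.norm_of_nonneg hr.le, mul_comm,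
    mul_le_mul_iff_left₀ hr]

/-! ### Positivity -/

lemma En_pos (p : ℝ) (h1 : 1 < p) (hN : p < N) : ∃ c > 0, ∀ φ : E N → ℝ, ContDiff ℝ ∞ φ →
    HasCompactSupport φ → (∀ x ∈ closedBall (0 : E N) 1, 1 ≤ φ x) → c ≤ En p φ := by
  have hp0 : 0 < p := by linarith
  have hN0 : (0:ℝ) < N := by linarith
  have hNn : 0 < N := by exact_mod_cast hN0
  set q : ℝ := (p⁻¹ - (N:ℝ)⁻¹)⁻¹ with hq
  have hpos : 0 < p⁻¹ - (N:ℝ)⁻¹ := by
    have := inv_strictAnti₀ hp0 hN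
    linarith
  have hq0 : 0 < q := by rw [hq]; positivity
  let P : NNReal := ⟨p, hp0.le⟩
  let Q : NNReal := ⟨q, hq0.le⟩
  set S := SNormLESNormFDerivOfEqConst ℝ (volume : Measure (E N)) (P : ℝ) with hS
  -- volume of the unit ball
  have hv0 : volume (closedBall (0 : E N) 1) ≠ 0 := (measure_closedBall_pos _ _ one_pos).ne'
  have hv1 : volume (closedBall (0 : E N) 1) ≠ ⊤ := measure_closedBall_lt_top.ne
  set v := (volume (closedBall (0 : E N) 1)).toReal with hv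
  have hvp : 0 < v := ENNReal.toReal_pos hv0 hv1
  refine ⟨(v ^ (q⁻¹) / (S + 1)) ^ p, by positivity, fun φ hs hc hφ => ?_⟩
  have key := eLpNorm_le_eLpNorm_fderiv_of_eq (F := ℝ) (volume : Measure (E N)) (u := φ)
    (hs.of_le (by simp)) hc (p := P) (p' := Q) (by
      rw [← NNReal.coe_le_coe]; exact h1.le) (by simp [hNn])
      (by
        simp only [finrank_euclideanSpace, Fintype.card_fin]
        change q⁻¹ = ((P⁻¹ : NNReal) : ℝ) - _
        rw [hq, inv_inv, NNReal.coe_inv]; rfl)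
  have hP0 : (P : ℝ≥0∞) ≠ 0 := by
    rw [ENNReal.coe_ne_zero]; exact fun h => hp0.ne' (congrArg NNReal.toReal h)
  have hQ0 : (Q : ℝ≥0∞) ≠ 0 := by
    rw [ENNReal.coe_ne_zero]; exact fun h => hq0.ne' (congrArg NNReal.toReal h)
  -- lower bound for the left side
  have hL : ENNReal.ofReal (v ^ q⁻¹) ≤ eLpNorm φ Q volume := by
    rw [eLpNorm_eq_lintegral_rpow_enorm_toReal hQ0 ENNReal.coe_ne_top]
    have hQr : (Q : ℝ≥0∞).toReal = q := rfl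
    rw [hQr, one_div, ← ENNReal.ofReal_rpow_of_pos hvp, hv, ENNReal.ofReal_toReal hv1]
    refine ENNReal.rpow_le_rpow ?_ (by positivity)
    calc volume (closedBall (0 : E N) 1) = ∫⁻ x in closedBall (0 : E N) 1, 1 := by simp
      _ ≤ ∫⁻ x in closedBall (0 : E N) 1, ‖φ x‖ₑ ^ q := by
          refine setLIntegral_mono_ae' measurableSet_closedBall (ae_of_all _ fun x hx => ?_)
          have h2 := hφ x hx
          have h3 : (1 : ℝ≥0∞) ≤ ‖φ x‖ₑ := by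
            rw [Real.enorm_eq_ofReal (by linarith), ← ENNReal.ofReal_one]
            exact ENNReal.ofReal_le_ofReal h2
          calc (1 : ℝ≥0∞) = 1 ^ q := by simp
            _ ≤ ‖φ x‖ₑ ^ q := ENNReal.rpow_le_rpow h3 hq0.le
      _ ≤ ∫⁻ x, ‖φ x‖ₑ ^ q := setLIntegral_le_lintegral _ _
  -- the right side
  have hT : Test (N := N) univ φ := ⟨hs, hc, subset_univ _⟩
  have hR : eLpNorm (fderiv ℝ φ) P volume = ENNReal.ofReal (En p φ ^ p⁻¹) := by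
    rw [eLpNorm_eq_lintegral_rpow_enorm_toReal hP0 ENNReal.coe_ne_top]
    have hPr : (P : ℝ≥0∞).toReal = p := rfl
    rw [hPr, one_div, ← ENNReal.ofReal_rpow_of_nonneg (En_nonneg _ _) (by positivity)]
    congr 1
    unfold En
    rw [ofReal_integral_eq_lintegral_ofReal (hT.En_int hp0)
      (ae_of_all _ fun x => by positivity)]
    refine lintegral_congr fun x => ?_
    rw [← ofReal_norm, ENNReal.ofReal_rpow_of_nonneg (norm_nonneg _) hp0.le]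
  rw [hR] at key
  have h4 : v ^ q⁻¹ ≤ S * En p φ ^ p⁻¹ := by
    have h5 := hL.trans key
    have h6 : ((S : NNReal) : ℝ≥0∞) * ENNReal.ofReal (En p φ ^ p⁻¹) =
        ENNReal.ofReal (S * En p φ ^ p⁻¹) := by
      rw [ENNReal.ofReal_mul (by positivity), ENNReal.ofReal_coe_nnreal]
    rw [h6, ENNReal.ofReal_le_ofReal_iff (by have := En_nonneg p φ; positivity)] at h5
    exact h5
  have h7 : v ^ q⁻¹ / (S + 1) ≤ En p φ ^ p⁻¹ := by
    rw [div_le_iff₀ (by positivity)]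
    have : 0 ≤ En p φ ^ p⁻¹ := Real.rpow_nonneg (En_nonneg _ _) _
    nlinarith [S.coe_nonneg]
  calc (v ^ q⁻¹ / (S + 1)) ^ p ≤ (En p φ ^ p⁻¹) ^ p :=
        Real.rpow_le_rpow (by positivity) h7 hp0.le
    _ = En p φ := by rw [← Real.rpow_mul (En_nonneg _ _), inv_mul_cancel₀ hp0.ne', Real.rpow_one]

end Pool.Agent.R999.Inr
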