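import Pool.Agent.R999.Inr.Trunc

/-!
# A near-identity dilation of the unit ball
-/

set_option autoImplicit false

open MeasureTheory Set Filter Topology Metric
open scoped ENNReal ContDiff

namespace Pool.Agent.R999.Inr

variable {N : ℕ}

lemma near_one [NeZero N] (p : ℝ) (hp : 0 < p) {s : ℝ} (hs : 0 < s) : ∃ δ > 0, δ < 1 ∧
    ∀ L : E N →L[ℝ] E N, ‖L - ContinuousLinearMap.id ℝ (E N)‖ < δ →
      ‖L‖ ^ p ≤ (1 + s) * |L.det| := by
  have h1 : Continuous fun L : E N →L[ℝ] E N => ‖L‖ ^ p :=
    continuous_norm.rpow_const fun x => Or.inr hp.le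
  have h2 : Continuous fun L : E N →L[ℝ] E N => (1 + s) * |L.det| :=
    continuous_const.mul ContinuousLinearMap.continuous_det.abs
  have h3 : ‖ContinuousLinearMap.id ℝ (E N)‖ ^ p <
      (1 + s) * |(ContinuousLinearMap.id ℝ (E N)).det| := by
    have : Nonempty (Fin N) := ⟨0⟩
    rw [ContinuousLinearMap.norm_id, Real.one_rpow]
    have : (ContinuousLinearMap.id ℝ (E N)).det = 1 := by
      rw [ContinuousLinearMap.det]
      exact LinearMap.det_id
    rw [this]
    simp [hs]
  have h4 : {L : E N →L[ℝ] E N | ‖L‖ ^ p < (1 + s) * |L.det|} ∈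
      𝓝 (ContinuousLinearMap.id ℝ (E N)) := (isOpen_lt h1 h2).mem_nhds h3
  obtain ⟨δ, hδ, h5⟩ := Metric.mem_nhds_iff.mp h4
  refine ⟨min δ 2⁻¹, by positivity, lt_of_le_of_lt (min_le_right _ _) (by norm_num),
    fun L hL => ?_⟩
  have : L ∈ ball (ContinuousLinearMap.id ℝ (E N)) δ := by
    rw [mem_ball, dist_eq_norm]
    exact hL.trans_le (min_le_left _ _)
  exact (h5 this).le

/-- near-identity dilations -/
lemma dilate [NeZero N] {p : ℝ} (hp : 0 < p) {s : ℝ} (hs : 0 < s) : ∃ ε > 0, ε < 1 ∧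
    ∀ U : Set (E N), closedBall 0 (3/2) ⊆ U → ∀ φ : E N → ℝ, Test U φ →
      (∀ x ∈ closedBall (0 : E N) (1 - ε), 1 ≤ φ x) →
      cap p (closedBall 0 1) U ≤ (1 + s) * En p φ := by
  obtain ⟨δ, hδ, hδ1, hL⟩ := near_one (N := N) p hp hs
  obtain ⟨χ, c1, c2, c3, c4, c5, c6⟩ := exists_bump (N := N) one_pos (show (1:ℝ) < 3/2 by norm_num)
  set X : E N → E N := fun x => χ x • x with hX
  have hXs : ContDiff ℝ ∞ X := c1.smul contDiff_id
  have hXc : HasCompactSupport X := c2.smul_right
  have hXd : Differentiable ℝ X := hXs.differentiable (by simp)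
  obtain ⟨M, hM⟩ := (hXc.fderiv (𝕜 := ℝ)).exists_bound_of_continuous
    (hXs.continuous_fderiv (by simp))
  have hM0 : 0 ≤ M := (norm_nonneg _).trans (hM 0)
  set ε : ℝ := δ / (2 * (M + 1)) with hε
  have hε0 : 0 < ε := by rw [hε]; positivity
  have hεM : ε * M < δ := by
    rw [hε, div_mul_eq_mul_div, div_lt_iff₀ (by positivity)]
    nlinarith
  have hε1 : ε < 1 := by
    rw [hε, div_lt_one (by positivity)]
    nlinarith
  refine ⟨ε, hε0, hε1, fun U hU φ hφ h1 => ?_⟩
  set T : E N → E N := fun x => x - ε • X x with hT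
  have hTs : ContDiff ℝ ∞ T := contDiff_id.sub (hXs.const_smul ε)
  have hTd : Differentiable ℝ T := hTs.differentiable (by simp)
  have hTf : ∀ x, fderiv ℝ T x = ContinuousLinearMap.id ℝ (E N) - ε • fderiv ℝ X x := fun x =>
    ((hasFDerivAt_id x).sub ((hXd x).hasFDerivAt.const_smul ε)).fderiv
  have hTn : ∀ x, ‖fderiv ℝ T x - ContinuousLinearMap.id ℝ (E N)‖ < δ := fun x => by
    rw [hTf, sub_sub_cancel_left, norm_neg, norm_smul, Real.norm_of_nonneg hε0.le]
    exact (mul_le_mul_of_nonneg_left (hM x) hε0.le).trans_lt hεM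
  have hLip : ∀ x y, ‖X x - X y‖ ≤ M * ‖x - y‖ := fun x y =>
    convex_univ.norm_image_sub_le_of_norm_fderiv_le (fun z _ => hXd z) (fun z _ => hM z)
      (mem_univ y) (mem_univ x)
  have hinj : InjOn T univ := by
    intro x _ y _ hxy
    have e1 : x - y = ε • (X x - X y) := by
      simp only [hT] at hxy
      rw [smul_sub]
      have := sub_eq_zero.mpr hxy
      rw [← sub_eq_zero]
      rw [← this]
      abel
    have e2 : ‖x - y‖ ≤ ε * M * ‖x - y‖ := by
      calc ‖x - y‖ = ε * ‖X x - X y‖ := by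
            conv_lhs => rw [e1]
            rw [norm_smul, Real.norm_of_nonneg hε0.le]
        _ ≤ ε * (M * ‖x - y‖) := by gcongr; exact hLip x y
        _ = _ := by ring
    by_contra hne
    have : 0 < ‖x - y‖ := norm_sub_pos_iff.mpr hne
    nlinarith
  -- the new test function
  have hψ : Test U (fun x => φ (T x)) := by
    have hsub : Function.support (fun x => φ (T x)) ⊆ closedBall 0 (3/2) ∪ tsupport φ := by
      intro x hx
      by_cases hxb : x ∈ closedBall (0 : E N) (3/2)
      · exact Or.inl hxb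
      · right
        have hx0 : χ x = 0 := image_eq_zero_of_notMem_tsupport fun h => hxb (c6 h)
        have hTx : T x = x := by simp [hT, hX, hx0]
        refine subset_tsupport _ ?_
        rw [Function.mem_support] at hx ⊢
        simpa [hTx] using hx
    have hcl : IsClosed (closedBall (0 : E N) (3/2) ∪ tsupport φ) :=
      isClosed_closedBall.union (isClosed_tsupport _)
    have hcc : IsCompact (closedBall (0 : E N) (3/2) ∪ tsupport φ) :=
      (isCompact_closedBall _ _).union hφ.cpt
    have hts : tsupport (fun x => φ (T x)) ⊆ closedBall 0 (3/2) ∪ tsupport φ :=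
      closure_minimal hsub hcl
    exact ⟨hφ.smooth.comp hTs, hcc.of_isClosed_subset (isClosed_tsupport _) hts,
      hts.trans (union_subset hU hφ.supp)⟩
  have hψ1 : ∀ x ∈ closedBall (0 : E N) 1, 1 ≤ φ (T x) := fun x hx => by
    refine h1 _ ?_
    have : T x = (1 - ε) • x := by
      simp only [hT, hX, c5 x hx, one_smul, sub_smul]
    rw [this, mem_closedBall_zero_iff, norm_smul, Real.norm_of_nonneg (by linarith)]
    rw [mem_closedBall_zero_iff] at hx
    nlinarith
  refine (cap_le hψ hψ1).trans ?_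
  -- change of variables
  set g : E N → ℝ := fun y => ‖fderiv ℝ φ y‖ ^ p with hg
  have hgi : Integrable g := hφ.En_int hp
  have hg0 : ∀ y, 0 ≤ g y := fun y => by simp only [hg]; positivity
  have hcv := integral_image_eq_integral_abs_det_fderiv_smul (volume : Measure (E N))
    MeasurableSet.univ (f := T) (f' := fun x => fderiv ℝ T x)
    (fun x _ => (hTd x).hasFDerivAt.hasFDerivWithinAt) hinj g
  have hci := (integrableOn_image_iff_integrableOn_abs_det_fderiv_smul (volume : Measure (E N))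
    MeasurableSet.univ (f := T) (f' := fun x => fderiv ℝ T x)
    (fun x _ => (hTd x).hasFDerivAt.hasFDerivWithinAt) hinj g).mp hgi.integrableOn
  rw [Measure.restrict_univ] at hcv
  rw [integrableOn_univ] at hci
  have hle : ∫ x in T '' univ, g x ≤ En p φ :=
    setIntegral_le_integral hgi (ae_of_all _ hg0)
  calc En p (fun x => φ (T x)) = ∫ x, ‖fderiv ℝ (fun x => φ (T x)) x‖ ^ p := rfl
    _ ≤ ∫ x, (1 + s) * (|(fderiv ℝ T x).det| • g (T x)) := by
        refine integral_mono_of_nonneg (ae_of_all _ fun x => by positivity)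
          (hci.const_mul _) (ae_of_all _ fun x => ?_)
        simp only
        have hd : fderiv ℝ (fun x => φ (T x)) x = (fderiv ℝ φ (T x)).comp (fderiv ℝ T x) :=
          fderiv_comp x (hφ.smooth.differentiable (by simp) (T x)) (hTd x)
        rw [hd]
        calc ‖(fderiv ℝ φ (T x)).comp (fderiv ℝ T x)‖ ^ p
            ≤ (‖fderiv ℝ φ (T x)‖ * ‖fderiv ℝ T x‖) ^ p :=
              Real.rpow_le_rpow (norm_nonneg _) (ContinuousLinearMap.opNorm_comp_le _ _) hp.le
          _ = g (T x) * ‖fderiv ℝ T x‖ ^ p := Real.mul_rpow (norm_nonneg _) (norm_nonneg _)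
          _ ≤ g (T x) * ((1 + s) * |(fderiv ℝ T x).det|) :=
              mul_le_mul_of_nonneg_left (hL _ (hTn x)) (hg0 _)
          _ = (1 + s) * (|(fderiv ℝ T x).det| • g (T x)) := by rw [smul_eq_mul]; ring
    _ = (1 + s) * ∫ x in T '' univ, g x := by rw [integral_const_mul, hcv]
    _ ≤ (1 + s) * En p φ := by gcongr

end Pool.Agent.R999.Inr
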