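import Pool.Agent.R999.Inr.Unit

/-!
# Scaling and comparison of the inradii
-/

set_option autoImplicit false

open MeasureTheory Set Filter Topology Metric
open scoped ENNReal ContDiff

namespace Pool.Agent.R999.Inr

variable {N : ℕ}

lemma ne_scale {U0 : Set (E N)} (hU0 : closedBall 0 (3/2) ⊆ U0) {U : Set (E N)} {x0 : E N}
    {r : ℝ} (hr : 0 < r) (hU : aff x0 r ⁻¹' U = U0) :
    ∃ φ : E N → ℝ, Test U φ ∧ ∀ x ∈ closedBall x0 r, 1 ≤ φ x := by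
  obtain ⟨φ, h1, h2⟩ := ne_unit (Subset.rfl : closedBall (0 : E N) 1 ⊆ closedBall 0 1)
    (show (1:ℝ) < 3/2 by norm_num) hU0
  have h3 := h1.comp_aff (-(r⁻¹ • x0)) (inv_ne_zero hr.ne')
  have e : aff (-(r⁻¹ • x0)) r⁻¹ ⁻¹' U0 = U := by
    rw [← hU]
    ext x
    simp only [mem_preimage, aff_inv hr.ne']
  rw [e] at h3
  refine ⟨_, h3, fun x hx => h2 _ ?_⟩
  have := aff_closedBall x0 hr 0 1
  rw [show aff x0 r 0 = x0 by simp [aff], one_mul] at this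
  rw [← this, mem_preimage, aff_inv hr.ne']
  exact hx

lemma cap_ball_scale {p : ℝ} {U0 : Set (E N)} (hU0 : closedBall 0 (3/2) ⊆ U0) {U : Set (E N)}
    {x0 : E N} {r : ℝ} (hr : 0 < r) (hU : aff x0 r ⁻¹' U = U0) :
    cap p (closedBall x0 r) U = r ^ (N - p) * cap p (closedBall 0 1) U0 := by
  have h := cap_aff (p := p) (ne_scale hU0 hr hU) x0 hr
  have e := aff_closedBall x0 hr 0 1
  rw [show aff x0 r 0 = x0 by simp [aff], one_mul] at e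
  rw [hU, e] at h
  rw [h, ← mul_assoc, ← Real.rpow_add hr]
  simp

lemma transfer {p : ℝ} (h1 : 1 < p) (hN : p < N) {U0 : Set (E N)}
    (hU0 : closedBall 0 (3/2) ⊆ U0) {γ : ℝ} (hγ0 : 0 < γ) (hγ : γ < 1) {η : ℝ} (hη : 0 < η) :
    ∃ κ > 0, κ < 1 ∧ ∀ (Ω U : Set (E N)) (x0 : E N) (r : ℝ), 0 < r → aff x0 r ⁻¹' U = U0 →
      cap p (closedBall x0 r \ Ω) U ≤ γ * cap p (closedBall x0 r) U →
      ∃ x1, cap p (closedBall x1 (κ * r) \ Ω) (ball x1 (2 * (κ * r))) ≤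
        η * (κ * r) ^ (N - p) := by
  obtain ⟨κ, hκ0, hκ1, hκ⟩ := unit_lemma h1 hN hU0 hγ0 hγ hη
  refine ⟨κ, hκ0, hκ1, fun Ω U x0 r hr hU hcap => ?_⟩
  have hrp : 0 < r ^ (p - N) := by positivity
  have e1 := aff_closedBall x0 hr 0 1
  rw [show aff x0 r 0 = x0 by simp [aff], one_mul] at e1
  have hne := ne_scale hU0 hr hU
  have hne' : ∃ φ : E N → ℝ, Test U φ ∧ ∀ x ∈ closedBall x0 r \ Ω, 1 ≤ φ x := by
    obtain ⟨φ, a, b⟩ := hne
    exact ⟨φ, a, fun x hx => b x hx.1⟩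
  have h2 := cap_aff (p := p) hne' x0 hr
  have h3 := cap_aff (p := p) hne x0 hr
  rw [hU, preimage_sdiff, e1] at h2
  rw [hU, e1] at h3
  have h4 : cap p (closedBall 0 1 \ aff x0 r ⁻¹' Ω) U0 ≤ γ * cap p (closedBall 0 1) U0 := by
    rw [h2, h3, mul_left_comm]
    gcongr
  obtain ⟨y, hy1, hy2⟩ := hκ _ sdiff_subset h4
  refine ⟨aff x0 r y, ?_⟩
  have hs : aff x0 r ⁻¹' (closedBall (aff x0 r y) (κ * r) \ Ω) =
      (closedBall 0 1 \ aff x0 r ⁻¹' Ω) ∩ closedBall y κ := by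
    rw [preimage_sdiff, aff_closedBall x0 hr]
    ext x
    simp only [Set.mem_sdiff, mem_inter_iff]
    constructor
    · rintro ⟨a, b⟩
      exact ⟨⟨hy1 a, b⟩, a⟩
    · rintro ⟨⟨_, b⟩, c⟩
      exact ⟨c, b⟩
  have hb : aff x0 r ⁻¹' (ball (aff x0 r y) (2 * (κ * r))) = ball y (2 * κ) := by
    rw [← mul_assoc, aff_ball x0 hr]
  have hne2 : ∃ φ : E N → ℝ, Test (ball (aff x0 r y) (2 * (κ * r))) φ ∧
      ∀ x ∈ closedBall (aff x0 r y) (κ * r) \ Ω, 1 ≤ φ x := by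
    obtain ⟨M, hM, hb⟩ := bump_ball (N := N)
    obtain ⟨ζ, z1, z2, z3, z4, z5, z6, z7⟩ := hb (aff x0 r y) (κ * r) (by positivity)
    exact ⟨ζ, ⟨z1, z2, z6⟩, fun x hx => (z5 x hx.1).ge⟩
  have h5 := cap_aff (p := p) hne2 x0 hr
  rw [hs, hb] at h5
  rw [h5] at hy2
  have h6 : cap p (closedBall (aff x0 r y) (κ * r) \ Ω) (ball (aff x0 r y) (2 * (κ * r))) =
      r ^ ((N:ℝ) - p) * (r ^ (p - N) *
        cap p (closedBall (aff x0 r y) (κ * r) \ Ω) (ball (aff x0 r y) (2 * (κ * r)))) := by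
    rw [← mul_assoc (r ^ ((N:ℝ) - p)), ← Real.rpow_add hr]
    simp
  rw [h6]
  calc _ ≤ r ^ ((N:ℝ) - p) * (η * κ ^ ((N:ℝ) - p)) := by gcongr
    _ = _ := by rw [Real.mul_rpow hκ0.le hr.le]; ring

/-- Step 1: admissible radii for the absolute capacity give admissible radii for the relative
one. -/
theorem abs_to_rel {p : ℝ} (h1 : 1 < p) (hN : p < N) {γ γ' : ℝ} (hγ : 0 < γ) (hγ'0 : 0 < γ')
    (hγ'1 : γ' < 1) : ∃ κ > 0, ∀ (Ω : Set (E N)) (x0 : E N) (r : ℝ), 0 < r →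
      cap p (closedBall x0 r \ Ω) univ ≤ γ' * cap p (closedBall x0 r) univ →
      ∃ x1, cap p (closedBall x1 (κ * r) \ Ω) (ball x1 (2 * (κ * r))) ≤
        γ * cap p (closedBall x1 (κ * r)) (ball x1 (2 * (κ * r))) := by
  have h32 : closedBall (0 : E N) (3/2) ⊆ ball 0 2 := closedBall_subset_ball (by norm_num)
  have hC0 : 0 < cap p (closedBall (0 : E N) 1) (ball 0 2) := by
    obtain ⟨c, hc, hc'⟩ := En_pos p h1 hN
    refine hc.trans_le (le_cap (ne_unit Subset.rfl (show (1:ℝ) < 3/2 by norm_num) h32) ?_)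
    intro φ hφ hφ1
    exact hc' φ hφ.smooth hφ.cpt hφ1
  obtain ⟨κ, hκ0, _, hκ⟩ := transfer h1 hN (U0 := univ) (subset_univ _) hγ'0 hγ'1
    (mul_pos hγ hC0)
  refine ⟨κ, hκ0, fun Ω x0 r hr h => ?_⟩
  obtain ⟨x1, hx1⟩ := hκ Ω univ x0 r hr preimage_univ h
  refine ⟨x1, hx1.trans (le_of_eq ?_)⟩
  have hb : aff x1 (κ * r) ⁻¹' (ball x1 (2 * (κ * r))) = ball 0 2 := by
    have := aff_ball x1 (show 0 < κ * r by positivity) 0 2
    rwa [show aff x1 (κ * r) 0 = x1 by simp [aff]] at this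
  rw [cap_ball_scale h32 (show 0 < κ * r by positivity) hb]
  ring

/-- Step 2: the converse. -/
theorem rel_to_abs {p : ℝ} (h1 : 1 < p) (hN : p < N) {γ γ' : ℝ} (hγ0 : 0 < γ) (hγ1 : γ < 1)
    (hγ' : 0 < γ') : ∃ κ > 0, ∀ (Ω : Set (E N)) (x0 : E N) (r : ℝ), 0 < r →
      cap p (closedBall x0 r \ Ω) (ball x0 (2 * r)) ≤
        γ * cap p (closedBall x0 r) (ball x0 (2 * r)) →
      ∃ x1, cap p (closedBall x1 (κ * r) \ Ω) univ ≤
        γ' * cap p (closedBall x1 (κ * r)) univ := by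
  have h32 : closedBall (0 : E N) (3/2) ⊆ ball 0 2 := closedBall_subset_ball (by norm_num)
  have hC0 : 0 < cap p (closedBall (0 : E N) 1) univ := by
    obtain ⟨c, hc, hc'⟩ := En_pos p h1 hN
    refine hc.trans_le (le_cap (ne_unit Subset.rfl (show (1:ℝ) < 3/2 by norm_num)
      (subset_univ _)) ?_)
    intro φ hφ hφ1
    exact hc' φ hφ.smooth hφ.cpt hφ1
  obtain ⟨κ, hκ0, _, hκ⟩ := transfer h1 hN h32 hγ0 hγ1 (mul_pos hγ' hC0)
  refine ⟨κ, hκ0, fun Ω x0 r hr h => ?_⟩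
  have hb : aff x0 r ⁻¹' (ball x0 (2 * r)) = ball 0 2 := by
    have := aff_ball x0 hr 0 2
    rwa [show aff x0 r 0 = x0 by simp [aff]] at this
  obtain ⟨x1, hx1⟩ := hκ Ω (ball x0 (2 * r)) x0 r hr hb h
  have hne2 : ∃ φ : E N → ℝ, Test (ball x1 (2 * (κ * r))) φ ∧
      ∀ x ∈ closedBall x1 (κ * r) \ Ω, 1 ≤ φ x := by
    obtain ⟨M, hM, hb⟩ := bump_ball (N := N)
    obtain ⟨ζ, z1, z2, z3, z4, z5, z6, z7⟩ := hb x1 (κ * r) (by positivity)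
    exact ⟨ζ, ⟨z1, z2, z6⟩, fun x hx => (z5 x hx.1).ge⟩
  refine ⟨x1, ((cap_anti (subset_univ _) hne2).trans hx1).trans (le_of_eq ?_)⟩
  rw [cap_ball_scale (U0 := univ) (subset_univ _) (show 0 < κ * r by positivity) preimage_univ]
  ring

end Pool.Agent.R999.Inr
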