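import Pool.Agent.R999.Inr.Poinc

/-!
# Local capacity estimate and selection of a ball
-/

set_option autoImplicit false

open MeasureTheory Set Filter Topology Metric
open scoped ENNReal ContDiff

namespace Pool.Agent.R999.Inr

variable {N : ℕ}

/-- the volume of the unit ball -/
noncomputable def om (N : ℕ) : ℝ := (volume (ball (0 : E N) 1)).toReal

lemma om_nonneg : 0 ≤ om N := ENNReal.toReal_nonneg

lemma om_pos : 0 < om N :=
  ENNReal.toReal_pos (measure_ball_pos _ _ one_pos).ne' measure_ball_lt_top.ne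

lemma vol_unit : volume (ball (0 : E N) 1) = ENNReal.ofReal (om N) := by
  rw [om, ENNReal.ofReal_toReal measure_ball_lt_top.ne]

lemma vol_ball (x : E N) {r : ℝ} (hr : 0 < r) :
    volume (ball x r) = ENNReal.ofReal (r ^ N * om N) := by
  rw [Measure.addHaar_ball_of_pos _ _ hr, finrank_euclideanSpace, Fintype.card_fin, vol_unit,
    ENNReal.ofReal_mul (by positivity)]

lemma young {a c s p : ℝ} (ha : 0 ≤ a) (hc : 0 ≤ c) (hs : 0 < s) (hp : 1 ≤ p) :
    (a + c) ^ p ≤ (1 + s) ^ (p - 1) * a ^ p + ((1 + s) / s) ^ (p - 1) * c ^ p := by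
  have h1 : 0 < 1 + s := by linarith
  have hcv := (convexOn_rpow hp).2 (mem_Ici.mpr (show (0:ℝ) ≤ (1 + s) * a by positivity))
    (mem_Ici.mpr (show (0:ℝ) ≤ (1 + s) / s * c by positivity))
    (show (0:ℝ) ≤ (1 + s)⁻¹ by positivity) (show (0:ℝ) ≤ s / (1 + s) by positivity)
    (by field_simp)
  simp only [smul_eq_mul] at hcv
  have e1 : (1 + s)⁻¹ * ((1 + s) * a) + s / (1 + s) * ((1 + s) / s * c) = a + c := by
    field_simp
  have e2 : (1 + s)⁻¹ * ((1 + s) * a) ^ p = (1 + s) ^ (p - 1) * a ^ p := by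
    rw [Real.mul_rpow h1.le ha, Real.rpow_sub_one h1.ne']; ring
  have e3 : s / (1 + s) * ((1 + s) / s * c) ^ p = ((1 + s) / s) ^ (p - 1) * c ^ p := by
    have h2 : (0:ℝ) < (1 + s) / s := by positivity
    rw [Real.mul_rpow h2.le hc, Real.rpow_sub_one h2.ne', div_div_eq_mul_div]
    ring
  rw [e1, e2, e3] at hcv
  exact hcv

lemma fderiv_mul_le {f g : E N → ℝ} (hf : Differentiable ℝ f) (hg : Differentiable ℝ g)
    (x : E N) : ‖fderiv ℝ (fun x => f x * g x) x‖ ≤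
      |g x| * ‖fderiv ℝ f x‖ + |f x| * ‖fderiv ℝ g x‖ := by
  have h : fderiv ℝ (fun x => f x * g x) x = f x • fderiv ℝ g x + g x • fderiv ℝ f x :=
    fderiv_mul (hf x) (hg x)
  rw [h]
  refine (norm_add_le _ _).trans ?_
  rw [norm_smul, norm_smul, Real.norm_eq_abs, Real.norm_eq_abs, add_comm]

/-- scaled bumps -/
lemma bump_ball : ∃ M : ℝ, 0 ≤ M ∧ ∀ (x1 : E N) (ρ : ℝ), 0 < ρ → ∃ ζ : E N → ℝ,
    ContDiff ℝ ∞ ζ ∧ HasCompactSupport ζ ∧ (∀ x, 0 ≤ ζ x) ∧ (∀ x, ζ x ≤ 1) ∧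
    (∀ x ∈ closedBall x1 ρ, ζ x = 1) ∧ tsupport ζ ⊆ ball x1 (2 * ρ) ∧
    ∀ x, ‖fderiv ℝ ζ x‖ ≤ M / ρ := by
  obtain ⟨χ, c1, c2, c3, c4, c5, c6⟩ := exists_bump (N := N) one_pos (show (1:ℝ) < 3/2 by norm_num)
  obtain ⟨M, hM⟩ := (c2.fderiv (𝕜 := ℝ)).exists_bound_of_continuous
    (c1.continuous_fderiv (by simp))
  have hM0 : 0 ≤ M := (norm_nonneg _).trans (hM 0)
  refine ⟨M, hM0, fun x1 ρ hρ => ?_⟩
  have hT : Test (closedBall 0 (3/2)) χ := ⟨c1, c2, c6⟩
  have hT' := hT.comp_aff (-(ρ⁻¹ • x1)) (inv_ne_zero hρ.ne')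
  have hin : ∀ x, ‖aff (-(ρ⁻¹ • x1)) ρ⁻¹ x‖ = ρ⁻¹ * ‖x - x1‖ := fun x => by
    rw [aff, show -(ρ⁻¹ • x1) + ρ⁻¹ • x = ρ⁻¹ • (x - x1) by rw [smul_sub]; abel, norm_smul,
      Real.norm_of_nonneg (by positivity)]
  refine ⟨fun x => χ (aff (-(ρ⁻¹ • x1)) ρ⁻¹ x), hT'.smooth, hT'.cpt, fun x => c3 _, fun x => c4 _,
    fun x hx => c5 _ ?_, hT'.supp.trans ?_, fun x => ?_⟩
  · rw [mem_closedBall_zero_iff, hin]
    rw [mem_closedBall, dist_eq_norm] at hx
    rw [inv_mul_le_iff₀ hρ]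
    linarith
  · intro x hx
    rw [mem_preimage, mem_closedBall_zero_iff, hin, inv_mul_le_iff₀ hρ] at hx
    rw [mem_ball, dist_eq_norm]
    linarith
  · have h1 : HasFDerivAt (aff (-(ρ⁻¹ • x1)) ρ⁻¹) (ρ⁻¹ • ContinuousLinearMap.id ℝ (E N)) x := by
      unfold aff
      exact ((hasFDerivAt_id x).const_smul ρ⁻¹).const_add _
    have h2 := ((c1.differentiable (by simp)) (aff (-(ρ⁻¹ • x1)) ρ⁻¹ x)).hasFDerivAt.comp x h1
    rw [show (fun x => χ (aff (-(ρ⁻¹ • x1)) ρ⁻¹ x)) = χ ∘ aff (-(ρ⁻¹ • x1)) ρ⁻¹ from rfl,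
      h2.fderiv, ContinuousLinearMap.comp_smul, ContinuousLinearMap.comp_id, norm_smul,
      Real.norm_of_nonneg (by positivity), div_eq_inv_mul]
    gcongr
    exact hM _

/-- Local capacity estimate. -/
lemma local_cap {p τ η : ℝ} (hp : 1 < p) (hτ : 0 < τ) (hη : 0 < η) : ∃ θ > 0, ∀ ρ > 0,
    ∀ (x1 : E N) (K Z : Set (E N)) (g : E N → ℝ), ContDiff ℝ ∞ g → (∀ x ∈ K, 1 ≤ g x) →
      K ⊆ closedBall x1 ρ → (∀ x ∈ Z, g x = 0) → Z ⊆ ball x1 (2 * ρ) → MeasurableSet Z →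
      ENNReal.ofReal (τ * ρ ^ N) ≤ volume Z →
      ∫⁻ y in ball x1 (2 * ρ), ENNReal.ofReal (‖fderiv ℝ g y‖ ^ p) ≤
        ENNReal.ofReal (θ * ρ ^ (N - p)) →
      cap p K (ball x1 (2 * ρ)) ≤ η * ρ ^ (N - p) := by
  have hp0 : 0 < p := by linarith
  obtain ⟨M, hM0, hb⟩ := bump_ball (N := N)
  set c1 : ℝ := 4 ^ p * 4 ^ N * om N / τ with hc1
  have hc10 : 0 ≤ c1 := by rw [hc1]; have := om_nonneg (N := N); positivity
  set A : ℝ := (1 + 1) ^ (p - 1) + ((1 + 1) / 1) ^ (p - 1) * M ^ p * c1 with hA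
  have hA0 : 0 < A := by rw [hA]; positivity
  refine ⟨η / A, by positivity, fun ρ hρ x1 K Z g hg hgK hKρ hgZ hZB hZ hτZ hD => ?_⟩
  set θ : ℝ := η / A with hθ
  have hθ0 : 0 < θ := by positivity
  obtain ⟨ζ, z1, z2, z3, z4, z5, z6, z7⟩ := hb x1 ρ hρ
  set B := ball x1 (2 * ρ) with hB
  have hgd : Differentiable ℝ g := hg.differentiable (by simp)
  have hgc : Continuous g := hg.continuous
  -- Poincaré
  have hP : ∫⁻ y in B, ENNReal.ofReal (|g y| ^ p) ≤ ENNReal.ofReal (c1 * θ * ρ ^ (N:ℝ)) := by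
    have h1 := poinc hp.le hg x1 (show 0 < 2 * ρ by positivity)
    rw [← hB] at h1
    have h2 : ENNReal.ofReal (τ * ρ ^ N) * ∫⁻ y in B, ENNReal.ofReal (|g y| ^ p) ≤
        ∫⁻ x in B, ∫⁻ y in B, ENNReal.ofReal (|g x - g y| ^ p) := by
      calc ENNReal.ofReal (τ * ρ ^ N) * ∫⁻ y in B, ENNReal.ofReal (|g y| ^ p)
          ≤ volume Z * ∫⁻ y in B, ENNReal.ofReal (|g y| ^ p) := by gcongr
        _ = ∫⁻ x in Z, ∫⁻ y in B, ENNReal.ofReal (|g y| ^ p) := by
            rw [lintegral_const, Measure.restrict_apply_univ, mul_comm]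
        _ = ∫⁻ x in Z, ∫⁻ y in B, ENNReal.ofReal (|g x - g y| ^ p) := by
            refine setLIntegral_congr_fun hZ fun x hx => ?_
            simp only [hgZ x hx, zero_sub, abs_neg]
        _ ≤ _ := lintegral_mono_set hZB
    have h3 : ENNReal.ofReal (τ * ρ ^ N) * ∫⁻ y in B, ENNReal.ofReal (|g y| ^ p) ≤
        ENNReal.ofReal ((2 * (2 * ρ)) ^ p * (2 ^ N * ((2 * ρ) ^ N * om N) *
          (θ * ρ ^ ((N:ℝ) - p)))) := by
      refine (h2.trans h1).trans ?_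
      have hom := om_nonneg (N := N)
      rw [ENNReal.ofReal_mul (by positivity), ENNReal.ofReal_mul (p := 2 ^ N * ((2 * ρ) ^ N * om N))
        (by positivity), ENNReal.ofReal_mul (p := 2 ^ N) (by positivity), hB,
        vol_ball x1 (show 0 < 2 * ρ by positivity)]
      gcongr
    rw [mul_comm, ← ENNReal.le_div_iff_mul_le (Or.inl (by
        rw [Ne, ENNReal.ofReal_eq_zero, not_le]; positivity)) (Or.inl ENNReal.ofReal_ne_top),
      ← ENNReal.ofReal_div_of_pos (by positivity)] at h3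
    refine h3.trans (le_of_eq ?_)
    congr 1
    have e1 : (2 * (2 * ρ)) ^ p = 4 ^ p * ρ ^ p := by
      rw [← Real.mul_rpow (by norm_num) hρ.le]; ring_nf
    have e2 : ρ ^ ((N:ℝ) - p) = ρ ^ N / ρ ^ p := by
      rw [Real.rpow_sub hρ, Real.rpow_natCast]
    have e3 : (2:ℝ) ^ N * 2 ^ N = 4 ^ N := by rw [← mul_pow]; norm_num
    rw [e1, e2, hc1, Real.rpow_natCast, mul_pow, ← e3]
    have : ρ ^ p ≠ 0 := by positivity
    field_simp
  -- the test function
  set φ : E N → ℝ := fun x => g x * ζ x with hφ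
  have hφs : ContDiff ℝ ∞ φ := hg.mul z1
  have hsub : tsupport φ ⊆ tsupport ζ := tsupport_mul_subset_right
  have hφT : Test B φ := ⟨hφs, z2.of_isClosed_subset (isClosed_tsupport _) hsub, hsub.trans z6⟩
  have hφK : ∀ x ∈ K, 1 ≤ φ x := fun x hx => by
    simp only [hφ]
    rw [z5 x (hKρ hx), mul_one]
    exact hgK x hx
  refine (cap_le hφT hφK).trans ?_
  have hpt : ∀ x, ‖fderiv ℝ φ x‖ ^ p ≤ (1 + 1) ^ (p - 1) * ‖fderiv ℝ g x‖ ^ p +
      ((1 + 1) / 1) ^ (p - 1) * ((M / ρ) ^ p * |g x| ^ p) := fun x => by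
    have h1 := fderiv_mul_le hgd (z1.differentiable (by simp)) x
    have h2 : ‖fderiv ℝ φ x‖ ≤ ‖fderiv ℝ g x‖ + M / ρ * |g x| := by
      refine h1.trans ?_
      have h3 : |ζ x| ≤ 1 := by rw [abs_of_nonneg (z3 x)]; exact z4 x
      have h4 : |ζ x| * ‖fderiv ℝ g x‖ ≤ 1 * ‖fderiv ℝ g x‖ := by gcongr
      have h5 : |g x| * ‖fderiv ℝ ζ x‖ ≤ |g x| * (M / ρ) := by gcongr; exact z7 x
      linarith
    calc ‖fderiv ℝ φ x‖ ^ p ≤ (‖fderiv ℝ g x‖ + M / ρ * |g x|) ^ p :=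
          Real.rpow_le_rpow (norm_nonneg _) h2 hp0.le
      _ ≤ _ := by
          refine (young (norm_nonneg _) (by positivity) one_pos hp.le).trans (le_of_eq ?_)
          rw [Real.mul_rpow (by positivity) (abs_nonneg _)]
  have hz : ∀ x ∉ B, ‖fderiv ℝ φ x‖ ^ p = 0 := fun x hx => by
    have h1 : x ∉ tsupport φ := fun h => hx (hφT.supp h)
    have h2 : fderiv ℝ φ x = 0 := by
      have := (support_fderiv_subset ℝ (f := φ))
      by_contra h
      exact h1 (this h)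
    rw [h2, norm_zero, Real.zero_rpow hp0.ne']
  have hEn : ENNReal.ofReal (En p φ) ≤ ENNReal.ofReal (η * ρ ^ ((N:ℝ) - p)) := by
    unfold En
    rw [ofReal_integral_eq_lintegral_ofReal (hφT.En_int hp0) (ae_of_all _ fun x => by positivity)]
    calc ∫⁻ x, ENNReal.ofReal (‖fderiv ℝ φ x‖ ^ p)
        = ∫⁻ x in B, ENNReal.ofReal (‖fderiv ℝ φ x‖ ^ p) := by
          rw [← lintegral_indicator measurableSet_ball]
          refine lintegral_congr fun x => ?_
          by_cases hx : x ∈ B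
          · rw [indicator_of_mem hx]
          · rw [indicator_of_notMem hx, hz x hx, ENNReal.ofReal_zero]
      _ ≤ ∫⁻ x in B, (ENNReal.ofReal ((1 + 1) ^ (p - 1)) * ENNReal.ofReal (‖fderiv ℝ g x‖ ^ p) +
            ENNReal.ofReal (((1 + 1) / 1) ^ (p - 1) * (M / ρ) ^ p) *
              ENNReal.ofReal (|g x| ^ p)) := by
          refine lintegral_mono fun x => ?_
          simp only
          rw [← ENNReal.ofReal_mul (by positivity), ← ENNReal.ofReal_mul (by positivity),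
            ← ENNReal.ofReal_add (by positivity) (by positivity), mul_assoc (((1 + 1) / 1) ^ _)]
          exact ENNReal.ofReal_le_ofReal (hpt x)
      _ = ENNReal.ofReal ((1 + 1) ^ (p - 1)) * (∫⁻ x in B, ENNReal.ofReal (‖fderiv ℝ g x‖ ^ p)) +
            ENNReal.ofReal (((1 + 1) / 1) ^ (p - 1) * (M / ρ) ^ p) *
              ∫⁻ x in B, ENNReal.ofReal (|g x| ^ p) := by
          have hm1 : Measurable fun x => ENNReal.ofReal ((1 + 1) ^ (p - 1)) *
              ENNReal.ofReal (‖fderiv ℝ g x‖ ^ p) := by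
            have : Continuous fun z => ‖fderiv ℝ g z‖ ^ p :=
              (hg.continuous_fderiv (by simp)).norm.rpow_const fun x => Or.inr hp0.le
            exact this.measurable.ennreal_ofReal.const_mul _
          rw [lintegral_add_left hm1, lintegral_const_mul' _ _ ENNReal.ofReal_ne_top,
            lintegral_const_mul' _ _ ENNReal.ofReal_ne_top]
      _ ≤ ENNReal.ofReal ((1 + 1) ^ (p - 1)) * ENNReal.ofReal (θ * ρ ^ ((N:ℝ) - p)) +
            ENNReal.ofReal (((1 + 1) / 1) ^ (p - 1) * (M / ρ) ^ p) *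
              ENNReal.ofReal (c1 * θ * ρ ^ (N:ℝ)) := by gcongr
      _ = ENNReal.ofReal (η * ρ ^ ((N:ℝ) - p)) := by
          rw [← ENNReal.ofReal_mul (by positivity), ← ENNReal.ofReal_mul (by positivity),
            ← ENNReal.ofReal_add (by positivity) (by positivity)]
          congr 1
          have e2 : ρ ^ ((N:ℝ) - p) = ρ ^ (N:ℝ) / ρ ^ p := Real.rpow_sub hρ _ _
          have e4 : η = θ * A := by rw [hθ]; field_simp
          rw [e4, hA, e2, Real.div_rpow hM0 hρ.le]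
          have : ρ ^ p ≠ 0 := by positivity
          field_simp
  rwa [ENNReal.ofReal_le_ofReal_iff (by positivity)] at hEn

end Pool.Agent.R999.Inr
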