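import Pool.Agent.R999.Inr.Cap

/-!
# A Poincaré inequality in double-integral form
-/

set_option autoImplicit false

open MeasureTheory Set Filter Topology Metric
open scoped ENNReal ContDiff

namespace Pool.Agent.R999.Inr

variable {N : ℕ}

lemma lint_scale {G : E N → ℝ≥0∞} (hG : Measurable G) (w : E N) {c : ℝ} (hc : 1/2 ≤ c) :
    ∫⁻ y, G (w + c • y) ≤ ENNReal.ofReal (2 ^ N) * ∫⁻ z, G z := by
  have hc0 : 0 < c := by linarith
  have h1 : ∫⁻ y, G (w + c • y) = ∫⁻ z, G (w + z) ∂(Measure.map (c • ·) (volume : Measure (E N))) := by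
    rw [lintegral_map (by fun_prop) (by fun_prop)]
  rw [h1, Measure.map_addHaar_smul _ hc0.ne', lintegral_smul_measure,
    lintegral_add_left_eq_self G w, smul_eq_mul]
  gcongr
  rw [finrank_euclideanSpace, Fintype.card_fin, abs_of_nonneg (by positivity), ← inv_pow]
  gcongr
  rw [inv_le_comm₀ hc0 (by norm_num)]
  linarith

lemma lint_half {G : E N → ℝ≥0∞} (hG : Measurable G) (B : Set (E N)) {I : Set ℝ}
    (hI : MeasurableSet I) (hI2 : volume I = ENNReal.ofReal (1/2)) {a c : ℝ → ℝ}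
    (ha : Continuous a) (hcc : Continuous c) (hc : ∀ t ∈ I, 1/2 ≤ c t) :
    ∫⁻ x in B, ∫⁻ y in B, ∫⁻ t in I, G (a t • x + c t • y) ≤
      ENNReal.ofReal (1/2) * ENNReal.ofReal (2 ^ N) * volume B * ∫⁻ z, G z := by
  have h1 : ∀ x, ∫⁻ y in B, ∫⁻ t in I, G (a t • x + c t • y) ≤
      ENNReal.ofReal (1/2) * ENNReal.ofReal (2 ^ N) * ∫⁻ z, G z := fun x => by
    calc ∫⁻ y in B, ∫⁻ t in I, G (a t • x + c t • y) ≤ ∫⁻ y, ∫⁻ t in I, G (a t • x + c t • y) :=
          setLIntegral_le_lintegral _ _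
      _ = ∫⁻ t in I, ∫⁻ y, G (a t • x + c t • y) := by
          refine lintegral_lintegral_swap (Measurable.aemeasurable ?_)
          have : Continuous fun q : E N × ℝ => a q.2 • x + c q.2 • q.1 := by fun_prop
          exact hG.comp this.measurable
      _ ≤ ∫⁻ t in I, ENNReal.ofReal (2 ^ N) * ∫⁻ z, G z :=
          setLIntegral_mono_ae' hI (ae_of_all _ fun t ht => lint_scale hG _ (hc t ht))
      _ = _ := by
          rw [lintegral_const, Measure.restrict_apply_univ, hI2]; ring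
  calc ∫⁻ x in B, ∫⁻ y in B, ∫⁻ t in I, G (a t • x + c t • y) ≤
      ∫⁻ x in B, ENNReal.ofReal (1/2) * ENNReal.ofReal (2 ^ N) * ∫⁻ z, G z := lintegral_mono h1
    _ = _ := by rw [lintegral_const, Measure.restrict_apply_univ]; ring

lemma lint_full {G : E N → ℝ≥0∞} (hG : Measurable G) (B : Set (E N)) :
    ∫⁻ x in B, ∫⁻ y in B, ∫⁻ t in Ioc (0:ℝ) 1, G (t • x + (1 - t) • y) ≤
      ENNReal.ofReal (2 ^ N) * volume B * ∫⁻ z, G z := by
  have hm : Measurable fun q : (E N × E N) × ℝ => G (q.2 • q.1.1 + (1 - q.2) • q.1.2) := by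
    have : Continuous fun q : (E N × E N) × ℝ => q.2 • q.1.1 + (1 - q.2) • q.1.2 := by fun_prop
    exact hG.comp this.measurable
  have hsplit : ∀ x y : E N, ∫⁻ t in Ioc (0:ℝ) 1, G (t • x + (1 - t) • y) =
      (∫⁻ t in Ioc (0:ℝ) (1/2), G (t • x + (1 - t) • y)) +
        ∫⁻ t in Ioc (1/2:ℝ) 1, G (t • x + (1 - t) • y) := fun x y => by
    rw [← Ioc_union_Ioc_eq_Ioc (show (0:ℝ) ≤ 1/2 by norm_num) (show (1/2:ℝ) ≤ 1 by norm_num),
      lintegral_union measurableSet_Ioc]
    rw [Set.disjoint_left]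
    intro z h1 h2
    exact absurd h1.2 (not_le.mpr h2.1)
  simp_rw [hsplit]
  have hm1 : ∀ I : Set ℝ, Measurable fun q : E N × E N =>
      ∫⁻ t in I, G (t • q.1 + (1 - t) • q.2) := fun I => hm.lintegral_prod_right'
  have e1 : ∀ x, ∫⁻ y in B, ((∫⁻ t in Ioc (0:ℝ) (1/2), G (t • x + (1 - t) • y)) +
        ∫⁻ t in Ioc (1/2:ℝ) 1, G (t • x + (1 - t) • y)) =
      (∫⁻ y in B, ∫⁻ t in Ioc (0:ℝ) (1/2), G (t • x + (1 - t) • y)) +
        ∫⁻ y in B, ∫⁻ t in Ioc (1/2:ℝ) 1, G (t • x + (1 - t) • y) := fun x =>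
    lintegral_add_left ((hm1 _).comp measurable_prodMk_left) _
  simp_rw [e1]
  rw [lintegral_add_left]
  swap
  · exact (hm1 (Ioc (0:ℝ) (1/2))).lintegral_prod_right'
  have hA := lint_half hG B (I := Ioc (0:ℝ) (1/2)) measurableSet_Ioc (by simp)
    (a := fun t => t) (c := fun t => 1 - t) continuous_id (by fun_prop)
    (fun t ht => by have := ht.2; linarith)
  have hB := lint_half hG B (I := Ioc (1/2:ℝ) 1) measurableSet_Ioc (by
      rw [Real.volume_Ioc]; norm_num)
    (a := fun t => 1 - t) (c := fun t => t) (by fun_prop) continuous_id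
    (fun t ht => ht.1.le)
  have hsw : ∫⁻ x in B, ∫⁻ y in B, ∫⁻ t in Ioc (1/2:ℝ) 1, G (t • x + (1 - t) • y) =
      ∫⁻ y in B, ∫⁻ x in B, ∫⁻ t in Ioc (1/2:ℝ) 1, G ((1 - t) • y + t • x) := by
    rw [lintegral_lintegral_swap (hm1 _).aemeasurable]
    simp_rw [add_comm]
  rw [hsw]
  calc _ ≤ _ := add_le_add hA hB
    _ = (ENNReal.ofReal (1/2) + ENNReal.ofReal (1/2)) *
        (ENNReal.ofReal (2 ^ N) * volume B * ∫⁻ z, G z) := by ring
    _ = _ := by
        rw [← ENNReal.ofReal_add (by norm_num) (by norm_num)]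
        norm_num

/-- Jensen on the unit interval -/
lemma jens {p : ℝ} (hp : 1 ≤ p) {h : ℝ → ℝ} (hc : Continuous h) (h0 : ∀ t, 0 ≤ h t) :
    (∫ t in (0:ℝ)..1, h t) ^ p ≤ ∫ t in (0:ℝ)..1, h t ^ p := by
  rw [intervalIntegral.integral_of_le zero_le_one, intervalIntegral.integral_of_le zero_le_one]
  have : IsProbabilityMeasure (volume.restrict (Ioc (0:ℝ) 1)) := ⟨by simp⟩
  refine ConvexOn.map_integral_le (s := Ici 0) (convexOn_rpow hp) ?_ isClosed_Ici
    (ae_of_all _ fun t => h0 t) ?_ ?_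
  · exact (continuous_id.rpow_const fun x => Or.inr (by linarith)).continuousOn
  · exact hc.integrableOn_Ioc
  · exact (hc.rpow_const fun x => Or.inr (by linarith)).integrableOn_Ioc

lemma seg_bound {p : ℝ} (hp : 1 ≤ p) {v : E N → ℝ} (hv : ContDiff ℝ ∞ v) (x y : E N) :
    |v x - v y| ^ p ≤ ‖x - y‖ ^ p *
      ∫ t in (0:ℝ)..1, ‖fderiv ℝ v (t • x + (1 - t) • y)‖ ^ p := by
  have hp0 : 0 < p := by linarith
  have hvd : Differentiable ℝ v := hv.differentiable (by simp)
  have hvc : Continuous (fderiv ℝ v) := hv.continuous_fderiv (by simp)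
  set γ : ℝ → E N := fun t => t • x + (1 - t) • y with hγ
  have hγc : Continuous γ := by rw [hγ]; fun_prop
  have hγd : ∀ t, HasDerivAt γ (x - y) t := fun t => by
    have h1 : HasDerivAt (fun t : ℝ => t • x) ((1:ℝ) • x) t := (hasDerivAt_id t).smul_const x
    have h2 : HasDerivAt (fun t : ℝ => (1 - t) • y) ((-1:ℝ) • y) t :=
      ((hasDerivAt_id t).const_sub 1).smul_const y
    have := h1.add h2
    rw [one_smul, neg_smul, one_smul, ← sub_eq_add_neg] at this
    exact this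
  have hd : ∀ t, HasDerivAt (fun t => v (γ t)) (fderiv ℝ v (γ t) (x - y)) t := fun t =>
    (hvd (γ t)).hasFDerivAt.comp_hasDerivAt t (hγd t)
  have hc1 : Continuous fun t => fderiv ℝ v (γ t) (x - y) :=
    (hvc.comp hγc).clm_apply continuous_const
  have hc2 : Continuous fun t => ‖fderiv ℝ v (γ t)‖ := (hvc.comp hγc).norm
  have hftc : v x - v y = ∫ t in (0:ℝ)..1, fderiv ℝ v (γ t) (x - y) := by
    rw [intervalIntegral.integral_eq_sub_of_hasDerivAt (fun t _ => hd t)
      (hc1.intervalIntegrable _ _)]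
    simp [hγ]
  have h1 : |v x - v y| ≤ ‖x - y‖ * ∫ t in (0:ℝ)..1, ‖fderiv ℝ v (γ t)‖ := by
    rw [hftc, ← Real.norm_eq_abs, ← intervalIntegral.integral_const_mul]
    refine intervalIntegral.norm_integral_le_of_norm_le zero_le_one (ae_of_all _ fun t _ => ?_)
      ((continuous_const.mul hc2).intervalIntegrable _ _)
    rw [mul_comm]
    exact ContinuousLinearMap.le_opNorm _ _
  have hI0 : 0 ≤ ∫ t in (0:ℝ)..1, ‖fderiv ℝ v (γ t)‖ :=
    intervalIntegral.integral_nonneg zero_le_one fun t _ => norm_nonneg _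
  calc |v x - v y| ^ p ≤ (‖x - y‖ * ∫ t in (0:ℝ)..1, ‖fderiv ℝ v (γ t)‖) ^ p :=
        Real.rpow_le_rpow (abs_nonneg _) h1 hp0.le
    _ = ‖x - y‖ ^ p * (∫ t in (0:ℝ)..1, ‖fderiv ℝ v (γ t)‖) ^ p :=
        Real.mul_rpow (norm_nonneg _) hI0
    _ ≤ _ := by
        gcongr
        exact jens hp hc2 fun t => norm_nonneg _

lemma poinc {p : ℝ} (hp : 1 ≤ p) {v : E N → ℝ} (hv : ContDiff ℝ ∞ v) (x1 : E N) {R : ℝ}
    (hR : 0 < R) :
    ∫⁻ x in ball x1 R, ∫⁻ y in ball x1 R, ENNReal.ofReal (|v x - v y| ^ p) ≤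
      ENNReal.ofReal ((2 * R) ^ p) * (ENNReal.ofReal (2 ^ N) * volume (ball x1 R) *
        ∫⁻ z in ball x1 R, ENNReal.ofReal (‖fderiv ℝ v z‖ ^ p)) := by
  have hp0 : 0 < p := by linarith
  have hvc : Continuous (fderiv ℝ v) := hv.continuous_fderiv (by simp)
  set f : E N → ℝ≥0∞ := fun z => ENNReal.ofReal (‖fderiv ℝ v z‖ ^ p) with hf
  have hfm : Measurable f := by
    have : Continuous fun z => ‖fderiv ℝ v z‖ ^ p := hvc.norm.rpow_const fun x => Or.inr hp0.le
    exact this.measurable.ennreal_ofReal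
  set G : E N → ℝ≥0∞ := (ball x1 R).indicator f with hG
  have hGm : Measurable G := hfm.indicator measurableSet_ball
  have h1 : ∀ x ∈ ball x1 R, ∀ y ∈ ball x1 R, ENNReal.ofReal (|v x - v y| ^ p) ≤
      ENNReal.ofReal ((2 * R) ^ p) * ∫⁻ t in Ioc (0:ℝ) 1, G (t • x + (1 - t) • y) := by
    intro x hx y hy
    have hxy : ‖x - y‖ ≤ 2 * R := by
      rw [← dist_eq_norm]
      have := dist_triangle_right x y x1
      have h3 := mem_ball.mp hx
      have h4 := mem_ball.mp hy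
      linarith
    have h2 : |v x - v y| ^ p ≤ (2 * R) ^ p *
        ∫ t in (0:ℝ)..1, ‖fderiv ℝ v (t • x + (1 - t) • y)‖ ^ p := by
      refine (seg_bound hp hv x y).trans ?_
      gcongr
      exact intervalIntegral.integral_nonneg zero_le_one fun t _ => by positivity
    refine (ENNReal.ofReal_le_ofReal h2).trans ?_
    rw [ENNReal.ofReal_mul (by positivity)]
    gcongr
    rw [intervalIntegral.integral_of_le zero_le_one, ofReal_integral_eq_lintegral_ofReal]
    · refine setLIntegral_mono_ae' measurableSet_Ioc (ae_of_all _ fun t ht => ?_)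
      have hmem : t • x + (1 - t) • y ∈ ball x1 R :=
        (convex_ball x1 R) hx hy ht.1.le (by linarith [ht.2]) (by ring)
      rw [hG, indicator_of_mem hmem]
    · have : Continuous fun t : ℝ => ‖fderiv ℝ v (t • x + (1 - t) • y)‖ ^ p := by
        refine Continuous.rpow_const ?_ fun x => Or.inr hp0.le
        exact (hvc.comp (by fun_prop)).norm
      exact this.integrableOn_Ioc
    · exact ae_of_all _ fun t => by positivity
  calc ∫⁻ x in ball x1 R, ∫⁻ y in ball x1 R, ENNReal.ofReal (|v x - v y| ^ p)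
      ≤ ∫⁻ x in ball x1 R, ∫⁻ y in ball x1 R, ENNReal.ofReal ((2 * R) ^ p) *
          ∫⁻ t in Ioc (0:ℝ) 1, G (t • x + (1 - t) • y) := by
        refine setLIntegral_mono_ae' measurableSet_ball (ae_of_all _ fun x hx => ?_)
        refine setLIntegral_mono_ae' measurableSet_ball (ae_of_all _ fun y hy => ?_)
        exact h1 x hx y hy
    _ = ENNReal.ofReal ((2 * R) ^ p) * ∫⁻ x in ball x1 R, ∫⁻ y in ball x1 R,
          ∫⁻ t in Ioc (0:ℝ) 1, G (t • x + (1 - t) • y) := by
        rw [← lintegral_const_mul' _ _ ENNReal.ofReal_ne_top]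
        refine lintegral_congr fun x => ?_
        rw [lintegral_const_mul' _ _ ENNReal.ofReal_ne_top]
    _ ≤ _ := by
        gcongr
        refine (lint_full hGm _).trans (le_of_eq ?_)
        rw [hG, lintegral_indicator measurableSet_ball]

end Pool.Agent.R999.Inr
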