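import Pool.Agent.R999.Inr.Loc

/-!
# Selection of a ball
-/

set_option autoImplicit false

open MeasureTheory Set Filter Topology Metric
open scoped ENNReal ContDiff

namespace Pool.Agent.R999.Inr

variable {N : ℕ}

lemma lint_ball {f : E N → ℝ≥0∞} (hf : Measurable f) (r : ℝ) :
    ∫⁻ x, ∫⁻ y in ball x r, f y = volume (ball (0 : E N) r) * ∫⁻ y, f y := by
  have h1 : ∀ x, ∫⁻ y in ball x r, f y = ∫⁻ z in ball (0 : E N) r, f (x + z) := fun x => by
    rw [← lintegral_indicator measurableSet_ball, ← lintegral_indicator measurableSet_ball,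
      ← lintegral_add_left_eq_self _ x]
    refine lintegral_congr fun z => ?_
    by_cases hz : z ∈ ball (0 : E N) r
    · rw [indicator_of_mem hz, indicator_of_mem]
      rw [mem_ball, dist_eq_norm, add_sub_cancel_left]
      exact mem_ball_zero_iff.mp hz
    · rw [indicator_of_notMem hz, indicator_of_notMem]
      rw [mem_ball, dist_eq_norm, add_sub_cancel_left]
      exact fun h => hz (mem_ball_zero_iff.mpr h)
  simp_rw [h1]
  rw [lintegral_lintegral_swap]
  · have h2 : ∀ z : E N, ∫⁻ x, f (x + z) = ∫⁻ x, f x := fun z => lintegral_add_right_eq_self f z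
    simp_rw [h2]
    rw [lintegral_const, Measure.restrict_apply_univ, mul_comm]
  · exact (hf.comp (measurable_fst.add measurable_snd)).aemeasurable

/-- Selection of a ball. -/
lemma select {p θ τ ρ ε E0 : ℝ} (hρ : 0 < ρ) (hρε : ρ ≤ ε / 4)
    {S : Set (E N)} (hS : MeasurableSet S) (hS1 : S ⊆ closedBall 0 (1 - ε / 2))
    {f : E N → ℝ≥0∞} (hf : Measurable f) (hE0 : 0 ≤ E0) (hfE : ∫⁻ x, f x ≤ ENNReal.ofReal E0)
    (hτ : 0 < τ) (hθ : 0 < θ)
    (hv : ENNReal.ofReal (τ + 2 ^ N * om N * ρ ^ p * E0 / θ) < volume S) :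
    ∃ x1 : E N, closedBall x1 ρ ⊆ closedBall 0 1 ∧
      ENNReal.ofReal (τ * ρ ^ N) ≤ volume (S ∩ ball x1 ρ) ∧
      ∫⁻ y in ball x1 (2 * ρ), f y ≤ ENNReal.ofReal (θ * ρ ^ (N - p)) := by
  by_contra hcon
  push Not at hcon
  set τ' := ENNReal.ofReal (τ * ρ ^ N) with hτ'
  set θ' := ENNReal.ofReal (θ * ρ ^ ((N:ℝ) - p)) with hθ'
  have hθ'0 : θ' ≠ 0 := by rw [hθ', Ne, ENNReal.ofReal_eq_zero, not_le]; positivity
  have hθ't : θ' ≠ ⊤ := ENNReal.ofReal_ne_top
  have hom := om_pos (N := N)
  -- pointwise bound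
  have hpt : ∀ x : E N, volume (S ∩ ball x ρ) ≤ (ball (0 : E N) 1).indicator (fun _ => τ') x +
      ENNReal.ofReal (ρ ^ N * om N) / θ' * ∫⁻ y in ball x (2 * ρ), f y := by
    intro x
    by_cases hx : x ∈ closedBall (0 : E N) (1 - ρ)
    · have hx' : ‖x‖ ≤ 1 - ρ := mem_closedBall_zero_iff.mp hx
      have hx1 : x ∈ ball (0 : E N) 1 := by rw [mem_ball_zero_iff]; linarith
      have hsub : closedBall x ρ ⊆ closedBall 0 1 := by
        intro y hy
        rw [mem_closedBall, dist_eq_norm] at hy
        rw [mem_closedBall_zero_iff]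
        calc ‖y‖ = ‖(y - x) + x‖ := by abel_nf
          _ ≤ ‖y - x‖ + ‖x‖ := norm_add_le _ _
          _ ≤ 1 := by linarith
      rw [indicator_of_mem hx1]
      by_cases h2 : τ' ≤ volume (S ∩ ball x ρ)
      · have h3 := hcon x hsub h2
        refine le_add_left ?_
        calc volume (S ∩ ball x ρ) ≤ volume (ball x ρ) := measure_mono inter_subset_right
          _ = ENNReal.ofReal (ρ ^ N * om N) := vol_ball x hρ
          _ = ENNReal.ofReal (ρ ^ N * om N) / θ' * θ' := by
              rw [ENNReal.div_mul_cancel hθ'0 hθ't]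
          _ ≤ _ := by gcongr
      · exact le_add_right (not_le.mp h2).le
    · have : S ∩ ball x ρ = ∅ := by
        rw [eq_empty_iff_forall_notMem]
        rintro y ⟨hy1, hy2⟩
        apply hx
        have h3 := mem_closedBall_zero_iff.mp (hS1 hy1)
        rw [mem_ball, dist_eq_norm] at hy2
        rw [mem_closedBall_zero_iff]
        calc ‖x‖ = ‖y - (y - x)‖ := by abel_nf
          _ ≤ ‖y‖ + ‖y - x‖ := norm_sub_le _ _
          _ ≤ 1 - ρ := by linarith
      rw [this, measure_empty]
      exact zero_le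
  have hint := lintegral_mono (μ := (volume : Measure (E N))) hpt
  have hL : ∫⁻ x, volume (S ∩ ball x ρ) = ENNReal.ofReal (ρ ^ N * om N) * volume S := by
    have h1 := lint_ball (f := S.indicator 1) (measurable_one.indicator hS) ρ
    rw [lintegral_indicator_one hS, vol_ball _ hρ] at h1
    rw [← h1]
    refine lintegral_congr fun x => ?_
    rw [lintegral_indicator_one hS, Measure.restrict_apply hS]
  rw [hL, lintegral_add_left (measurable_const.indicator measurableSet_ball),
    lintegral_indicator measurableSet_ball, lintegral_const, Measure.restrict_apply_univ,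
    vol_unit, lintegral_const_mul', lint_ball hf, vol_ball _ (show 0 < 2 * ρ by positivity)] at hint
  swap
  · exact ENNReal.div_ne_top ENNReal.ofReal_ne_top hθ'0
  have hc : 0 < ρ ^ N * om N := by positivity
  have h5 : ENNReal.ofReal (ρ ^ N * om N) * volume S ≤ ENNReal.ofReal (ρ ^ N * om N) *
      ENNReal.ofReal (τ + 2 ^ N * om N * ρ ^ p * E0 / θ) := by
    refine hint.trans ?_
    calc τ' * ENNReal.ofReal (om N) + ENNReal.ofReal (ρ ^ N * om N) / θ' *
          (ENNReal.ofReal ((2 * ρ) ^ N * om N) * ∫⁻ y, f y)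
        ≤ τ' * ENNReal.ofReal (om N) + ENNReal.ofReal (ρ ^ N * om N) / θ' *
          (ENNReal.ofReal ((2 * ρ) ^ N * om N) * ENNReal.ofReal E0) := by gcongr
      _ = ENNReal.ofReal (ρ ^ N * om N) *
            ENNReal.ofReal (τ + 2 ^ N * om N * ρ ^ p * E0 / θ) := by
          rw [hτ', hθ', ← ENNReal.ofReal_div_of_pos (by positivity),
            ← ENNReal.ofReal_mul (by positivity), ← ENNReal.ofReal_mul (by positivity),
            ← ENNReal.ofReal_mul (by positivity), ← ENNReal.ofReal_add (by positivity)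
            (by positivity), ← ENNReal.ofReal_mul (by positivity)]
          congr 1
          have e2 : ρ ^ ((N:ℝ) - p) = ρ ^ N / ρ ^ p := by
            rw [Real.rpow_sub hρ, Real.rpow_natCast]
          rw [e2, mul_pow]
          have : ρ ^ p ≠ 0 := by positivity
          have : ρ ^ N ≠ 0 := by positivity
          field_simp
  have h6 := (ENNReal.mul_le_mul_iff_right (by
    rw [Ne, ENNReal.ofReal_eq_zero, not_le]; exact hc) ENNReal.ofReal_ne_top).mp h5
  exact absurd h6 (not_le.mpr hv)

end Pool.Agent.R999.Inr
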