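import Pool.Agent.R999.Inr.Cap

/-!
# Smooth truncations
-/

set_option autoImplicit false

open MeasureTheory Set Filter Topology Metric
open scoped ENNReal ContDiff

namespace Pool.Agent.R999.Inr

lemma exists_trunc {b : ℝ} (hb : 1 < b) : ∃ H : ℝ → ℝ, ContDiff ℝ ∞ H ∧ (∀ t ≤ 0, H t = 0) ∧
    (∀ t, 1 ≤ t → H t = 1) ∧ (∀ t, 0 ≤ H t) ∧ (∀ t, H t ≤ 1) ∧ ∀ t, |deriv H t| ≤ b := by
  set a : ℝ := (1 - b⁻¹) / 2 with ha
  have hb0 : 0 < b := by linarith
  have hbi : b⁻¹ < 1 := inv_lt_one_of_one_lt₀ hb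
  have hbi0 : 0 < b⁻¹ := by positivity
  have ha0 : 0 < a := by rw [ha]; linarith
  have ha1 : 1 - 2 * a = b⁻¹ := by rw [ha]; ring
  set χ : ℝ → ℝ := fun s => Real.smoothTransition (s / a) * Real.smoothTransition ((1 - s) / a)
    with hχ
  have hχs : ContDiff ℝ ∞ χ := by
    have h1 : ContDiff ℝ ∞ fun s : ℝ => Real.smoothTransition (s / a) :=
      Real.smoothTransition.contDiff.comp (by fun_prop)
    have h2 : ContDiff ℝ ∞ fun s : ℝ => Real.smoothTransition ((1 - s) / a) :=
      Real.smoothTransition.contDiff.comp (by fun_prop)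
    exact h1.mul h2
  have hχc : Continuous χ := hχs.continuous
  have hχ0 : ∀ s, 0 ≤ χ s := fun s => mul_nonneg (Real.smoothTransition.nonneg _)
    (Real.smoothTransition.nonneg _)
  have hχ1 : ∀ s, χ s ≤ 1 := fun s => mul_le_one₀ (Real.smoothTransition.le_one _)
    (Real.smoothTransition.nonneg _) (Real.smoothTransition.le_one _)
  have hχn : ∀ s ≤ 0, χ s = 0 := fun s hs => by
    simp only [hχ]
    rw [Real.smoothTransition.zero_of_nonpos (div_nonpos_of_nonpos_of_nonneg hs ha0.le), zero_mul]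
  have hχp : ∀ s, 1 ≤ s → χ s = 0 := fun s hs => by
    simp only [hχ]
    rw [Real.smoothTransition.zero_of_nonpos
      (div_nonpos_of_nonpos_of_nonneg (show 1 - s ≤ 0 by linarith) ha0.le), mul_zero]
  have hχm : ∀ s, a ≤ s → s ≤ 1 - a → χ s = 1 := fun s h1 h2 => by
    simp only [hχ]
    rw [Real.smoothTransition.one_of_one_le ((one_le_div ha0).mpr h1),
      Real.smoothTransition.one_of_one_le ((one_le_div ha0).mpr (by linarith)), mul_one]
  have hint : ∀ u v : ℝ, IntervalIntegrable χ volume u v := fun u v =>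
    hχc.intervalIntegrable u v
  set I : ℝ := ∫ s in (0:ℝ)..1, χ s with hI
  have hIb : b⁻¹ ≤ I := by
    have h1 : ∫ s in (0:ℝ)..1, χ s = (∫ s in (0:ℝ)..a, χ s) + (∫ s in a..(1-a), χ s) +
        ∫ s in (1-a)..1, χ s := by
      rw [intervalIntegral.integral_add_adjacent_intervals (hint _ _) (hint _ _),
        intervalIntegral.integral_add_adjacent_intervals (hint _ _) (hint _ _)]
    have h2 : ∫ s in a..(1-a), χ s = 1 - 2 * a := by
      have : ∫ s in a..(1-a), χ s = ∫ s in a..(1-a), (1:ℝ) := by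
        refine intervalIntegral.integral_congr fun s hs => ?_
        rw [uIcc_of_le (by linarith)] at hs
        exact hχm s hs.1 hs.2
      rw [this]; simp; ring
    have h3 : 0 ≤ ∫ s in (0:ℝ)..a, χ s := intervalIntegral.integral_nonneg ha0.le fun s _ => hχ0 s
    have h4 : 0 ≤ ∫ s in (1-a)..1, χ s :=
      intervalIntegral.integral_nonneg (by linarith) fun s _ => hχ0 s
    rw [hI, h1, h2, ha1]
    linarith
  have hI0 : 0 < I := hbi0.trans_le hIb
  set H : ℝ → ℝ := fun t => (∫ s in (0:ℝ)..t, χ s) / I with hH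
  have hHd : ∀ t, HasDerivAt H (χ t / I) t := fun t =>
    (hχc.integral_hasStrictDerivAt 0 t).hasDerivAt.div_const I
  have hHd' : deriv H = fun t => χ t / I := funext fun t => (hHd t).deriv
  have hmono : Monotone H := monotone_of_deriv_nonneg (fun t => (hHd t).differentiableAt)
    fun t => by rw [hHd']; exact div_nonneg (hχ0 t) hI0.le
  have hz : ∀ t ≤ 0, H t = 0 := fun t ht => by
    simp only [hH]
    have : ∫ s in (0:ℝ)..t, χ s = 0 := by
      rw [intervalIntegral.integral_symm]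
      have : ∫ s in t..(0:ℝ), χ s = ∫ s in t..(0:ℝ), (0:ℝ) := by
        refine intervalIntegral.integral_congr fun s hs => ?_
        rw [uIcc_of_le ht] at hs
        exact hχn s hs.2
      rw [this]; simp
    rw [this, zero_div]
  have ho : ∀ t, 1 ≤ t → H t = 1 := fun t ht => by
    simp only [hH]
    have : ∫ s in (1:ℝ)..t, χ s = 0 := by
      have : ∫ s in (1:ℝ)..t, χ s = ∫ s in (1:ℝ)..t, (0:ℝ) := by
        refine intervalIntegral.integral_congr fun s hs => ?_
        rw [uIcc_of_le ht] at hs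
        exact hχp s hs.1
      rw [this]; simp
    rw [← intervalIntegral.integral_add_adjacent_intervals (hint 0 1) (hint 1 t), this, add_zero,
      ← hI, div_self hI0.ne']
  refine ⟨H, ?_, hz, ho, fun t => ?_, fun t => ?_, fun t => ?_⟩
  · rw [contDiff_infty_iff_deriv]
    exact ⟨fun t => (hHd t).differentiableAt, by rw [hHd']; exact hχs.div_const I⟩
  · rcases le_total t 0 with h | h
    · rw [hz t h]
    · rw [← hz 0 le_rfl]; exact hmono h
  · rcases le_total 1 t with h | h
    · rw [ho t h]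
    · rw [← ho 1 le_rfl]; exact hmono h
  · rw [hHd']
    simp only
    rw [abs_of_nonneg (div_nonneg (hχ0 t) hI0.le), div_le_iff₀ hI0]
    calc χ t ≤ 1 := hχ1 t
      _ = b * b⁻¹ := by rw [mul_inv_cancel₀ hb0.ne']
      _ ≤ b * I := by gcongr

/-- composition of a test function with a smooth `H`, `H 0 = 0`. -/
lemma Test.comp_fun {N : ℕ} {U : Set (E N)} {φ : E N → ℝ} (h : Test U φ) {H : ℝ → ℝ}
    (hH : ContDiff ℝ ∞ H) (h0 : H 0 = 0) : Test U fun x => H (φ x) :=
  ⟨hH.comp h.smooth, h.cpt.comp_left h0, (closure_mono (by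
    intro x hx hx'
    exact hx (by simp [hx', h0]))).trans h.supp⟩

lemma norm_fderiv_comp_le {N : ℕ} {φ : E N → ℝ} (h : Differentiable ℝ φ) {H : ℝ → ℝ}
    (hH : Differentiable ℝ H) {b : ℝ} (hb : ∀ t, |deriv H t| ≤ b) (x : E N) :
    ‖fderiv ℝ (fun x => H (φ x)) x‖ ≤ b * ‖fderiv ℝ φ x‖ := by
  have h1 := (hH (φ x)).hasDerivAt.comp_hasFDerivAt x (h x).hasFDerivAt
  rw [show (fun x => H (φ x)) = H ∘ φ from rfl, h1.fderiv, norm_smul, Real.norm_eq_abs]
  gcongr
  exact hb _

end Pool.Agent.R999.Inr
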