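import Pool.Agent.R999.Inr.Sel
import Pool.Agent.R999.Inr.Dil

/-!
# The unit ball lemma
-/

set_option autoImplicit false

open MeasureTheory Set Filter Topology Metric
open scoped ENNReal ContDiff

namespace Pool.Agent.R999.Inr

variable {N : ℕ}

/-- a small parameter -/
lemma exists_small {γ p : ℝ} (hγ : γ < 1) : ∃ t > 0,
    (1 + t) * ((1 + t) ^ (p - 1) * ((1 + t) ^ p * γ)) < 1 := by
  have hc : ContinuousAt (fun t : ℝ => (1 + t) * ((1 + t) ^ (p - 1) * ((1 + t) ^ p * γ))) 0 := by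
    have h1 : ContinuousAt (fun t : ℝ => 1 + t) 0 := by fun_prop
    have h2 : ∀ q : ℝ, ContinuousAt (fun t : ℝ => (1 + t) ^ q) 0 := fun q =>
      h1.rpow_const (Or.inl (by norm_num))
    exact h1.mul ((h2 _).mul ((h2 _).mul continuousAt_const))
  have h0 : (fun t : ℝ => (1 + t) * ((1 + t) ^ (p - 1) * ((1 + t) ^ p * γ))) 0 < 1 := by
    simp [hγ]
  have h1 := hc.eventually (gt_mem_nhds h0)
  rw [Metric.eventually_nhds_iff] at h1
  obtain ⟨δ, hδ, h2⟩ := h1
  refine ⟨δ / 2, by positivity, h2 ?_⟩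
  rw [Real.dist_eq, sub_zero, abs_of_pos (by positivity)]
  linarith

/-- The set where the truncated potential is small has measure bounded below. -/
lemma small_set {p : ℝ} (h1 : 1 < p) {U : Set (E N)} {γ ε t C A M : ℝ}
    (ht : 0 < t) (hε0 : 0 < ε) (hε1 : ε < 1) (hM0 : 0 ≤ M)
    (hU : closedBall 0 (3/2) ⊆ U)
    (hdil : ∀ φ : E N → ℝ, Test U φ → (∀ x ∈ closedBall (0 : E N) (1 - ε), 1 ≤ φ x) →
      C ≤ (1 + t) * En p φ)
    {ζ : E N → ℝ} (hζ : Test (closedBall 0 (1 - ε / 2)) ζ) (hζ0 : ∀ x, 0 ≤ ζ x)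
    (hζ1 : ∀ x, ζ x ≤ 1) (hζe : ∀ x ∈ closedBall (0 : E N) (1 - ε), ζ x = 1)
    (hζM : ∀ x, ‖fderiv ℝ ζ x‖ ≤ M) (hA : A = ((1 + t) / t) ^ (p - 1) * M ^ p)
    {v : E N → ℝ} (hv : Test U v) (hv1 : ∀ x, v x ≤ 1)
    (hvE : En p v ≤ (1 + t) ^ p * γ * C) :
    C * (1 - (1 + t) * ((1 + t) ^ (p - 1) * ((1 + t) ^ p * γ))) / ((1 + t) * (A + 1)) ≤
      ∫ x in closedBall (0 : E N) (1 - ε / 2), (1 - v x) ^ p := by
  have hp0 : 0 < p := by linarith
  have hA0 : 0 ≤ A := by rw [hA]; positivity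
  set J := ∫ x in closedBall (0 : E N) (1 - ε / 2), (1 - v x) ^ p with hJ
  have hJ0 : 0 ≤ J := setIntegral_nonneg measurableSet_closedBall fun x _ =>
    Real.rpow_nonneg (by linarith [hv1 x]) _
  set w : E N → ℝ := fun x => 1 - (1 - v x) * (1 - ζ x) with hw
  have hws : ContDiff ℝ ∞ w := contDiff_const.sub ((contDiff_const.sub hv.smooth).mul
    (contDiff_const.sub hζ.smooth))
  have hsub : Function.support w ⊆ tsupport v ∪ tsupport ζ := by
    intro x hx
    by_contra hcon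
    rw [mem_union, not_or] at hcon
    have e1 := image_eq_zero_of_notMem_tsupport hcon.1
    have e2 := image_eq_zero_of_notMem_tsupport hcon.2
    apply hx
    simp [hw, e1, e2]
  have hcl : IsClosed (tsupport v ∪ tsupport ζ) := (isClosed_tsupport _).union (isClosed_tsupport _)
  have hts : tsupport w ⊆ tsupport v ∪ tsupport ζ := closure_minimal hsub hcl
  have hwT : Test U w := ⟨hws, (hv.cpt.isCompact.union hζ.cpt).of_isClosed_subset
    (isClosed_tsupport _) hts, hts.trans (union_subset hv.supp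
      (hζ.supp.trans ((closedBall_subset_closedBall (by linarith)).trans hU)))⟩
  have hw1 : ∀ x ∈ closedBall (0 : E N) (1 - ε), 1 ≤ w x := fun x hx => by
    simp [hw, hζe x hx]
  have hkey := hdil w hwT hw1
  have hvd : Differentiable ℝ v := hv.smooth.differentiable (by simp)
  have hζd : Differentiable ℝ ζ := hζ.smooth.differentiable (by simp)
  set cB := closedBall (0 : E N) (1 - ε / 2) with hcB
  have hpt : ∀ x, ‖fderiv ℝ w x‖ ^ p ≤ (1 + t) ^ (p - 1) * ‖fderiv ℝ v x‖ ^ p +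
      A * cB.indicator (fun x => (1 - v x) ^ p) x := fun x => by
    have e1 : HasFDerivAt w (-((1 - v x) • (-fderiv ℝ ζ x) + (1 - ζ x) • (-fderiv ℝ v x))) x := by
      have a1 : HasFDerivAt (fun x => 1 - v x) (-fderiv ℝ v x) x :=
        (hvd x).hasFDerivAt.const_sub 1
      have a2 : HasFDerivAt (fun x => 1 - ζ x) (-fderiv ℝ ζ x) x :=
        (hζd x).hasFDerivAt.const_sub 1
      exact (a1.mul a2).const_sub 1
    have b1 : 0 ≤ 1 - v x := by linarith [hv1 x]
    have b2 : 0 ≤ 1 - ζ x := by linarith [hζ1 x]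
    have e2 : ‖fderiv ℝ w x‖ ≤ ‖fderiv ℝ v x‖ + (1 - v x) * ‖fderiv ℝ ζ x‖ := by
      rw [e1.fderiv, norm_neg]
      refine (norm_add_le _ _).trans ?_
      rw [norm_smul, norm_smul, norm_neg, norm_neg, Real.norm_of_nonneg b1,
        Real.norm_of_nonneg b2]
      have : (1 - ζ x) * ‖fderiv ℝ v x‖ ≤ 1 * ‖fderiv ℝ v x‖ := by
        gcongr
        linarith [hζ0 x]
      linarith
    by_cases hx : x ∈ cB
    · rw [indicator_of_mem hx]
      have e3 : ‖fderiv ℝ w x‖ ≤ ‖fderiv ℝ v x‖ + M * (1 - v x) := by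
        refine e2.trans ?_
        rw [mul_comm M]
        gcongr
        exact hζM x
      calc ‖fderiv ℝ w x‖ ^ p ≤ (‖fderiv ℝ v x‖ + M * (1 - v x)) ^ p :=
            Real.rpow_le_rpow (norm_nonneg _) e3 hp0.le
        _ ≤ (1 + t) ^ (p - 1) * ‖fderiv ℝ v x‖ ^ p + ((1 + t) / t) ^ (p - 1) *
              (M * (1 - v x)) ^ p := young (norm_nonneg _) (by positivity) ht h1.le
        _ = _ := by rw [Real.mul_rpow hM0 b1, hA]; ring
    · rw [indicator_of_notMem hx, mul_zero, add_zero]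
      have h3 : fderiv ℝ ζ x = 0 := by
        by_contra h
        exact hx (hζ.supp (support_fderiv_subset ℝ (f := ζ) h))
      rw [h3, norm_zero, mul_zero, add_zero] at e2
      calc ‖fderiv ℝ w x‖ ^ p ≤ ‖fderiv ℝ v x‖ ^ p := Real.rpow_le_rpow (norm_nonneg _) e2 hp0.le
        _ ≤ (1 + t) ^ (p - 1) * ‖fderiv ℝ v x‖ ^ p := by
            refine le_mul_of_one_le_left (by positivity) (Real.one_le_rpow (by linarith)
              (by linarith))
  have hcont : Continuous fun x => (1 - v x) ^ p :=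
    (continuous_const.sub hv.smooth.continuous).rpow_const fun x => Or.inr hp0.le
  have hi2 : Integrable (cB.indicator fun x => (1 - v x) ^ p) :=
    (hcont.continuousOn.integrableOn_compact (isCompact_closedBall _ _)).integrable_indicator
      measurableSet_closedBall
  have hEw : En p w ≤ (1 + t) ^ (p - 1) * En p v + A * J := by
    calc En p w = ∫ x, ‖fderiv ℝ w x‖ ^ p := rfl
      _ ≤ ∫ x, ((1 + t) ^ (p - 1) * ‖fderiv ℝ v x‖ ^ p +
            A * cB.indicator (fun x => (1 - v x) ^ p) x) :=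
          integral_mono (hwT.En_int hp0) (((hv.En_int hp0).const_mul _).add (hi2.const_mul _)) hpt
      _ = _ := by
          rw [integral_add ((hv.En_int hp0).const_mul _) (hi2.const_mul _), integral_const_mul,
            integral_const_mul, integral_indicator measurableSet_closedBall]
          rfl
  have h6 : C ≤ (1 + t) * ((1 + t) ^ (p - 1) * ((1 + t) ^ p * γ * C) + A * J) := by
    refine hkey.trans ?_
    gcongr
    refine hEw.trans ?_
    gcongr
  have h7 : C * (1 - (1 + t) * ((1 + t) ^ (p - 1) * ((1 + t) ^ p * γ))) ≤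
      (1 + t) * (A * J) := by
    have : (1 + t) * ((1 + t) ^ (p - 1) * ((1 + t) ^ p * γ * C) + A * J) =
      C * ((1 + t) * ((1 + t) ^ (p - 1) * ((1 + t) ^ p * γ))) + (1 + t) * (A * J) := by ring
    rw [this] at h6
    linarith
  rw [div_le_iff₀ (by positivity)]
  have h8 : 0 ≤ (1 + t) * J := by positivity
  calc _ ≤ _ := h7
    _ ≤ J * ((1 + t) * (A + 1)) := by
        have : J * ((1 + t) * (A + 1)) = (1 + t) * (A * J) + (1 + t) * J := by ring
        rw [this]; linarith

lemma exists_rpow_small {p : ℝ} (hp : 0 < p) {X δ m : ℝ} (hX : 0 ≤ X) (hδ : 0 < δ) (hm : 0 < m) :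
    ∃ ρ > 0, ρ ≤ m ∧ X * ρ ^ p ≤ δ := by
  set y : ℝ := δ / (X + 1) with hy
  have hy0 : 0 < y := by positivity
  refine ⟨min m (y ^ p⁻¹), by positivity, min_le_left _ _, ?_⟩
  have h1 : (min m (y ^ p⁻¹)) ^ p ≤ y := by
    calc (min m (y ^ p⁻¹)) ^ p ≤ (y ^ p⁻¹) ^ p :=
          Real.rpow_le_rpow (by positivity) (min_le_right _ _) hp.le
      _ = y := by rw [← Real.rpow_mul hy0.le, inv_mul_cancel₀ hp.ne', Real.rpow_one]
  calc X * (min m (y ^ p⁻¹)) ^ p ≤ X * y := by gcongr
    _ ≤ (X + 1) * y := by nlinarith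
    _ = δ := by rw [hy]; field_simp

lemma En_comp_le {p : ℝ} (hp : 0 < p) {U : Set (E N)} {φ : E N → ℝ} (h : Test U φ) {H : ℝ → ℝ}
    (hH : ContDiff ℝ ∞ H) (h0 : H 0 = 0) {b : ℝ} (hb : ∀ t, |deriv H t| ≤ b) :
    En p (fun x => H (φ x)) ≤ b ^ p * En p φ := by
  have hb0 : 0 ≤ b := (abs_nonneg _).trans (hb 0)
  unfold En
  rw [← integral_const_mul]
  refine integral_mono ((h.comp_fun hH h0).En_int hp) ((h.En_int hp).const_mul _) fun x => ?_
  simp only
  rw [← Real.mul_rpow hb0 (norm_nonneg _)]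
  exact Real.rpow_le_rpow (norm_nonneg _) (norm_fderiv_comp_le
    (h.smooth.differentiable (by simp)) (hH.differentiable (by simp)) hb x) hp.le

/-- measure lower bound -/
lemma vol_small {p : ℝ} (hp : 0 < p) {ε ε' d : ℝ} (hε0 : 0 < ε) (hε' : 0 < ε')
    (hd : ε' ^ p * om N ≤ d / 2) {v : E N → ℝ} (hv : Continuous v) (hv0 : ∀ x, 0 ≤ v x)
    (hv1 : ∀ x, v x ≤ 1) (hJ : d ≤ ∫ x in closedBall (0 : E N) (1 - ε / 2), (1 - v x) ^ p) :
    ENNReal.ofReal (d / 2) ≤ volume (closedBall (0 : E N) (1 - ε / 2) ∩ {x | v x < 1 - ε'}) := by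
  set cB := closedBall (0 : E N) (1 - ε / 2) with hcB
  set S := cB ∩ {x | v x < 1 - ε'} with hS
  have hSm : MeasurableSet S := measurableSet_closedBall.inter (isOpen_lt hv
    continuous_const).measurableSet
  have hcont : Continuous fun x => (1 - v x) ^ p :=
    (continuous_const.sub hv).rpow_const fun x => Or.inr hp.le
  have hfin : volume cB ≠ ⊤ := measure_closedBall_lt_top.ne
  have hSf : volume S ≠ ⊤ := ((measure_mono inter_subset_left).trans_lt
    measure_closedBall_lt_top).ne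
  have hi1 : IntegrableOn (fun x => (1 - v x) ^ p) cB :=
    hcont.continuousOn.integrableOn_compact (isCompact_closedBall _ _)
  have hi2 : IntegrableOn (fun x => S.indicator (fun _ => (1:ℝ)) x + ε' ^ p) cB :=
    Integrable.add ((integrable_indicator_iff hSm).mpr
      (integrableOn_const (by
        rw [Measure.restrict_apply hSm]
        exact ((measure_mono inter_subset_left).trans_lt hSf.lt_top).ne)))
      (integrableOn_const hfin)
  have hle : ∫ x in cB, (1 - v x) ^ p ≤ ∫ x in cB, (S.indicator (fun _ => (1:ℝ)) x + ε' ^ p) := by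
    refine setIntegral_mono_on hi1 hi2 measurableSet_closedBall fun x hx => ?_
    by_cases h : v x < 1 - ε'
    · rw [indicator_of_mem (show x ∈ S from ⟨hx, h⟩)]
      have : (1 - v x) ^ p ≤ 1 := Real.rpow_le_one (by linarith [hv1 x]) (by linarith [hv0 x]) hp.le
      have h2 : 0 ≤ ε' ^ p := by positivity
      linarith
    · rw [indicator_of_notMem (fun hS => h hS.2), zero_add]
      exact Real.rpow_le_rpow (by linarith [hv1 x]) (by linarith [not_lt.mp h]) hp.le
  have hcBo : (volume cB).toReal ≤ om N := by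
    refine ENNReal.toReal_mono measure_ball_lt_top.ne (measure_mono ?_)
    exact closedBall_subset_ball (by linarith)
  have heq : ∫ x in cB, (S.indicator (fun _ => (1:ℝ)) x + ε' ^ p) =
      (volume S).toReal + ε' ^ p * (volume cB).toReal := by
    rw [integral_add, setIntegral_indicator hSm, setIntegral_const, setIntegral_const]
    · rw [inter_eq_self_of_subset_right (show S ⊆ cB from inter_subset_left)]
      simp only [Measure.real, smul_eq_mul, mul_one]
      ring
    · exact (integrable_indicator_iff hSm).mpr (integrableOn_const (by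
        rw [Measure.restrict_apply hSm]
        exact ((measure_mono inter_subset_left).trans_lt hSf.lt_top).ne))
    · exact integrableOn_const hfin
  have h3 : ε' ^ p * (volume cB).toReal ≤ ε' ^ p * om N := by gcongr
  rw [heq] at hle
  refine ENNReal.ofReal_le_of_le_toReal ?_
  linarith

/-- The unit ball lemma. -/
theorem unit_lemma {p : ℝ} (h1 : 1 < p) (hN : p < N) {U : Set (E N)}
    (hU : closedBall 0 (3/2) ⊆ U) {γ : ℝ} (hγ0 : 0 < γ) (hγ : γ < 1) {η : ℝ} (hη : 0 < η) :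
    ∃ κ > 0, κ < 1 ∧ ∀ F : Set (E N), F ⊆ closedBall 0 1 →
      cap p F U ≤ γ * cap p (closedBall 0 1) U →
      ∃ x1, closedBall x1 κ ⊆ closedBall 0 1 ∧
        cap p (F ∩ closedBall x1 κ) (ball x1 (2 * κ)) ≤ η * κ ^ (N - p) := by
  have hp0 : 0 < p := by linarith
  have hN0 : N ≠ 0 := by
    rintro rfl
    norm_num at hN
    linarith
  have : NeZero N := ⟨hN0⟩
  set C := cap p (closedBall (0 : E N) 1) U with hC
  have hC0 : 0 < C := by
    obtain ⟨c, hc, hc'⟩ := En_pos p h1 hN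
    refine hc.trans_le (le_cap (ne_unit Subset.rfl (show (1:ℝ) < 3/2 by norm_num) hU) ?_)
    intro φ hφ hφ1
    exact hc' φ hφ.smooth hφ.cpt hφ1
  set γ₁ := (1 + γ) / 2 with hγ₁
  have hγ₁0 : 0 < γ₁ := by rw [hγ₁]; linarith
  obtain ⟨t, ht, hf⟩ := exists_small (p := p) (show γ₁ < 1 by rw [hγ₁]; linarith)
  obtain ⟨H, H1, H2, H3, H4, H5, H6⟩ := exists_trunc (show 1 < 1 + t by linarith)
  obtain ⟨ε, hε0, hε1, hdil⟩ := dilate (N := N) hp0 ht
  obtain ⟨ζ, z1, z2, z3, z4, z5, z6⟩ := exists_bump (N := N) (show 0 < 1 - ε by linarith)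
    (show 1 - ε < 1 - ε / 2 by linarith)
  obtain ⟨M, hM⟩ := (z2.fderiv (𝕜 := ℝ)).exists_bound_of_continuous
    (z1.continuous_fderiv (by simp))
  have hM0 : 0 ≤ M := (norm_nonneg _).trans (hM 0)
  set A := ((1 + t) / t) ^ (p - 1) * M ^ p with hA
  have hA0 : 0 ≤ A := by rw [hA]; positivity
  set d := C * (1 - (1 + t) * ((1 + t) ^ (p - 1) * ((1 + t) ^ p * γ₁))) / ((1 + t) * (A + 1))
    with hd
  have hd0 : 0 < d := by
    rw [hd]
    have : 0 < 1 - (1 + t) * ((1 + t) ^ (p - 1) * ((1 + t) ^ p * γ₁)) := by linarith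
    positivity
  obtain ⟨ε', hε'0, hε'1, hε'⟩ := exists_rpow_small hp0 (om_nonneg (N := N)) (half_pos hd0) one_pos
  rw [mul_comm] at hε'
  set K : ℝ → ℝ := fun s => H (1 + (s - 1) / ε') with hK
  have hKs : ContDiff ℝ ∞ K := H1.comp (by fun_prop)
  have hK1 : K 1 = 1 := by simp only [hK, sub_self, zero_div, add_zero]; exact H3 1 le_rfl
  have hK0 : ∀ s, s ≤ 1 - ε' → K s = 0 := fun s hs => by
    simp only [hK]
    refine H2 _ ?_
    have : (s - 1) / ε' ≤ -1 := by rw [div_le_iff₀ hε'0]; linarith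
    linarith
  set L := (1 + t) / ε' with hL
  have hL0 : 0 < L := by rw [hL]; positivity
  have hKL : ∀ s, |deriv K s| ≤ L := fun s => by
    have e1 : HasDerivAt (fun s : ℝ => 1 + (s - 1) / ε') (1 / ε') s :=
      (((hasDerivAt_id s).sub_const 1).div_const ε').const_add 1
    have e2 := (H1.differentiable (by simp) (1 + (s - 1) / ε')).hasDerivAt.comp s e1
    rw [show K = H ∘ fun s => 1 + (s - 1) / ε' from rfl, e2.deriv, abs_mul,
      abs_of_pos (show 0 < 1 / ε' by positivity), hL, div_eq_mul_one_div (1 + t)]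
    gcongr
    exact H6 _
  obtain ⟨θ₀, hθ₀, hloc⟩ := local_cap (N := N) h1 (show 0 < d / 8 by positivity) hη
  set θ := θ₀ / L ^ p with hθ
  have hθ0 : 0 < θ := by rw [hθ]; positivity
  set E0 := (1 + t) ^ p * γ₁ * C with hE0
  have hE00 : 0 ≤ E0 := by rw [hE0]; positivity
  obtain ⟨ρ, hρ0, hρε, hρ⟩ := exists_rpow_small hp0
    (show 0 ≤ 2 ^ N * om N * E0 / θ by have := om_nonneg (N := N); positivity)
    (show 0 < d / 8 by positivity) (show 0 < ε / 4 by positivity)
  refine ⟨ρ, hρ0, by linarith, fun F hF hcap => ?_⟩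
  -- the truncated potential
  obtain ⟨u, hu, hu1, huE⟩ := exists_lt (p := p) (a := γ₁ * C)
    (ne_unit hF (show (1:ℝ) < 3/2 by norm_num) hU)
    (hcap.trans_lt (mul_lt_mul_of_pos_right (by rw [hγ₁]; linarith) hC0))
  set v : E N → ℝ := fun x => H (u x) with hv
  have hvT : Test U v := hu.comp_fun H1 (H2 0 le_rfl)
  have hvE : En p v ≤ E0 := by
    refine (En_comp_le hp0 hu H1 (H2 0 le_rfl) H6).trans ?_
    rw [hE0, mul_assoc]
    gcongr
  have hJ := small_set (C := C) (t := t) (ε := ε) (γ := γ₁) h1 ht hε0 hε1 hM0 hU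
    (fun φ a b => hdil U hU φ a b) ⟨z1, z2, z6⟩ z3 z4 z5 hM hA hvT (fun x => H5 _) hvE
  rw [← hd] at hJ
  have hvc : Continuous v := hvT.smooth.continuous
  have hvol := vol_small hp0 hε0 hε'0 hε' hvc (fun x => H4 _) (fun x => H5 _) hJ
  set S := closedBall (0 : E N) (1 - ε / 2) ∩ {x | v x < 1 - ε'} with hS
  have hSm : MeasurableSet S := measurableSet_closedBall.inter (isOpen_lt hvc
    continuous_const).measurableSet
  have hfm : Measurable fun x => ENNReal.ofReal (‖fderiv ℝ v x‖ ^ p) := by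
    have : Continuous fun z => ‖fderiv ℝ v z‖ ^ p :=
      hvT.fderiv_cont.norm.rpow_const fun x => Or.inr hp0.le
    exact this.measurable.ennreal_ofReal
  have hfE : ∫⁻ x, ENNReal.ofReal (‖fderiv ℝ v x‖ ^ p) ≤ ENNReal.ofReal E0 := by
    rw [← ofReal_integral_eq_lintegral_ofReal (hvT.En_int hp0)
      (ae_of_all _ fun x => by positivity)]
    exact ENNReal.ofReal_le_ofReal hvE
  obtain ⟨x1, hx1, hx2, hx3⟩ := select (p := p) (θ := θ) (τ := d / 8) (E0 := E0) hρ0 hρε hSm
    inter_subset_left hfm hE00 hfE (by positivity) hθ0 (by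
      refine lt_of_lt_of_le ?_ hvol
      rw [ENNReal.ofReal_lt_ofReal_iff (by positivity)]
      have : 2 ^ N * om N * ρ ^ p * E0 / θ = 2 ^ N * om N * E0 / θ * ρ ^ p := by ring
      rw [this]
      linarith)
  refine ⟨x1, hx1, hloc ρ hρ0 x1 (F ∩ closedBall x1 ρ) (S ∩ ball x1 ρ) (fun x => K (v x))
    (hKs.comp hvT.smooth) ?_ inter_subset_right ?_ ?_ (hSm.inter measurableSet_ball) hx2 ?_⟩
  · rintro x ⟨hxF, _⟩
    have : v x = 1 := H3 _ (hu1 x hxF)
    rw [this, hK1]
  · rintro x ⟨hxS, _⟩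
    exact hK0 _ (le_of_lt hxS.2)
  · exact inter_subset_right.trans (ball_subset_ball (by linarith))
  · calc ∫⁻ y in ball x1 (2 * ρ), ENNReal.ofReal (‖fderiv ℝ (fun x => K (v x)) y‖ ^ p)
        ≤ ∫⁻ y in ball x1 (2 * ρ), ENNReal.ofReal (L ^ p) *
            ENNReal.ofReal (‖fderiv ℝ v y‖ ^ p) := by
          refine lintegral_mono fun y => ?_
          simp only
          rw [← ENNReal.ofReal_mul (by positivity), ← Real.mul_rpow hL0.le (norm_nonneg _)]
          refine ENNReal.ofReal_le_ofReal (Real.rpow_le_rpow (norm_nonneg _) ?_ hp0.le)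
          exact norm_fderiv_comp_le (hvT.smooth.differentiable (by simp))
            (hKs.differentiable (by simp)) hKL y
      _ = ENNReal.ofReal (L ^ p) * ∫⁻ y in ball x1 (2 * ρ),
            ENNReal.ofReal (‖fderiv ℝ v y‖ ^ p) := by
          rw [lintegral_const_mul' _ _ ENNReal.ofReal_ne_top]
      _ ≤ ENNReal.ofReal (L ^ p) * ENNReal.ofReal (θ * ρ ^ ((N:ℝ) - p)) := by gcongr
      _ = ENNReal.ofReal (θ₀ * ρ ^ ((N:ℝ) - p)) := by
          rw [← ENNReal.ofReal_mul (by positivity)]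
          congr 1
          rw [hθ]
          have : L ^ p ≠ 0 := by positivity
          field_simp

end Pool.Agent.R999.Inr
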